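import Mathlib

/-!
Basic tools: a recursion principle, the facts about a measurable cardinal that are used,
special and small subsets of a tree, the coding lemma, pressing down, and the construction
of complete ultrafilters.
-/

set_option autoImplicit false

universe u

open Cardinal Set Filter

namespace Pool.MTree

/-! ### A recursion principle -/

open Classical in
/-- Restriction of a family to the predecessors of an index. -/
noncomputable def restr {ι X : Type*} (r : ι → ι → Prop) (x0 : X) (i : ι) (W : ι → X) : ι → X :=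
  fun j => if r j i then W j else x0

theorem restr_of {ι X : Type*} {r : ι → ι → Prop} {x0 : X} {i j : ι} {W : ι → X}
    (h : r j i) : restr r x0 i W j = W j := by
  simp [restr, h]

theorem restr_congr {ι X : Type*} {r : ι → ι → Prop} {x0 : X} {i : ι} {W W' : ι → X}
    (h : ∀ j, r j i → W j = W' j) : restr r x0 i W = restr r x0 i W' := by
  funext j
  unfold restr
  split_ifs with hj
  · exact h j hj
  · rfl

theorem rec_exists {ι X : Type*} {r : ι → ι → Prop} (wf : WellFounded r) (x0 : X)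
    (P : ι → (ι → X) → X → Prop)
    (step : ∀ (i : ι) (W : ι → X), (∀ j, r j i → P j (restr r x0 j W) (W j)) →
      ∃ x, P i (restr r x0 i W) x) :
    ∃ W : ι → X, ∀ i, P i (restr r x0 i W) (W i) := by
  classical
  let F : ∀ i : ι, (∀ j : ι, r j i → X) → X := fun i h =>
    if hx : ∃ x, P i (fun j => if hj : r j i then h j hj else x0) x then hx.choose else x0
  let W : ι → X := wf.fix F
  have hW : ∀ i, W i = F i (fun j _ => W j) := fun i => wf.fix_eq F i
  refine ⟨W, fun i => ?_⟩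
  induction i using wf.induction with
  | _ i ih =>
    have hex := step i W ih
    have hr : (fun j => if hj : r j i then W j else x0) = restr r x0 i W := by
      funext j
      unfold restr
      split_ifs <;> rfl
    have hex' : ∃ x, P i (fun j => if hj : r j i then W j else x0) x := by
      rw [hr]; exact hex
    have hW' : W i = hex'.choose := by
      rw [hW i]
      exact dif_pos hex'
    rw [hW', ← hr]
    exact hex'.choose_spec

/-! ### The cardinal -/

/-- What is used about the cardinal: `K` is a well-ordered set of type `κ`, and `κ` is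
uncountable, regular and a strong limit. -/
structure MC (κ : Cardinal.{u}) (K : Type u) [LinearOrder K] : Prop where
  wf : WellFoundedLT K
  card : #K = κ
  iio : ∀ x : K, #(Iio x) < κ
  bdd : ∀ S : Set K, #S < κ → ∃ b, ∀ x ∈ S, x < b
  unc : ℵ₀ < κ
  sl : ∀ c < κ, 2 ^ c < κ
  sub : ∀ X : Type u, #X ≤ κ → #{s : Set X // #s < κ} ≤ κ

namespace MC

variable {κ : Cardinal.{u}} {K : Type u} [LinearOrder K]

theorem inf (h : MC κ K) : ℵ₀ ≤ κ := h.unc.le

theorem iic (h : MC κ K) (x : K) : #(Iic x) < κ := by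
  have h1 : #(Iic x) ≤ #(Iio x) + 1 := by
    rw [← Iio_union_right]
    refine (mk_union_le _ _).trans ?_
    rw [mk_singleton]
  exact h1.trans_lt (add_lt_of_lt h.inf (h.iio x) (one_lt_aleph0.trans h.unc))

theorem prod_le (h : MC κ K) {X Y : Type u} (hX : #X ≤ κ) (hY : #Y ≤ κ) : #(X × Y) ≤ κ := by
  rw [mk_prod, lift_id, lift_id]
  exact (mul_le_mul' hX hY).trans (mul_eq_self h.inf).le

theorem prod_lt (h : MC κ K) {X Y : Type u} (hX : #X < κ) (hY : #Y < κ) : #(X × Y) < κ := by
  rw [mk_prod, lift_id, lift_id]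
  exact mul_lt_of_lt h.inf hX hY

theorem sum_le (h : MC κ K) {X Y : Type u} (hX : #X ≤ κ) (hY : #Y ≤ κ) : #(X ⊕ Y) ≤ κ := by
  rw [mk_sum, lift_id, lift_id]
  exact (add_le_add hX hY).trans (add_eq_self h.inf).le

theorem fun_lt (h : MC κ K) {X Y : Type u} (hX : #X < κ) (hY : #Y < κ) : #(X → Y) < κ := by
  rw [mk_pi, prod_const, lift_id, lift_id]
  by_cases hY2 : #Y ≤ 1
  · refine lt_of_le_of_lt (power_le_power_right hY2) ?_
    rw [one_power]
    exact one_lt_aleph0.trans h.unc
  · calc #Y ^ #X ≤ (2 ^ #Y) ^ #X := power_le_power_right (cantor _).le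
      _ = 2 ^ (#Y * #X) := by rw [power_mul]
      _ < κ := h.sl _ (mul_lt_of_lt h.inf hY hX)

theorem list_lt (h : MC κ K) {X : Type u} (hX : #X < κ) : #(List X) < κ :=
  (mk_list_le_max X).trans_lt (max_lt h.unc hX)

/-- An element of `K` above a family indexed by a small type. -/
theorem bdd_family (h : MC κ K) {ι : Type u} (hι : #ι < κ) (F : ι → K) : ∃ b, ∀ i, F i < b := by
  obtain ⟨b, hb⟩ := h.bdd (range F) (mk_range_le.trans_lt hι)
  exact ⟨b, fun i => hb _ ⟨i, rfl⟩⟩

end MC

/-! ### Measurable cardinals -/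

theorem compl_mem_of_small {κ : Cardinal.{u}} {X : Type u} (U : Ultrafilter X)
    [CardinalInterFilter (U : Filter X) κ] (hU : ∀ x, {x} ∉ U) (S : Set X) (hS : #S < κ) :
    Sᶜ ∈ U := by
  have h1 : (⋂ x, ⋂ _ : x ∈ S, ({x}ᶜ : Set X)) ∈ (U : Filter X) :=
    (cardinal_bInter_mem hS (s := fun x _ => ({x}ᶜ : Set X))).2
      (fun x _ => Ultrafilter.compl_mem_iff_notMem.2 (hU x))
  have h2 : (⋂ x, ⋂ _ : x ∈ S, ({x}ᶜ : Set X)) = Sᶜ := by
    ext y
    simp only [mem_iInter, mem_compl_iff, mem_singleton_iff]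
    constructor
    · intro h hy
      exact h y hy rfl
    · intro hy x hx hxy
      exact hy (hxy ▸ hx)
  rw [h2] at h1
  exact h1

theorem MC.of_ultrafilter {κ : Cardinal.{u}} (hκ : ℵ₀ < κ) (U : Ultrafilter κ.ord.ToType)
    [CardinalInterFilter (U : Filter κ.ord.ToType) κ] (hU : ∀ x, {x} ∉ U) :
    MC κ κ.ord.ToType := by
  have hcard : #κ.ord.ToType = κ := by simp
  have hiio : ∀ x : κ.ord.ToType, #(Iio x) < κ := by
    intro x
    have := mk_Iio_lt x (by simp)
    rwa [hcard] at this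
  have hiic : ∀ x : κ.ord.ToType, #(Iic x) < κ := by
    intro x
    have h1 : #(Iic x) ≤ #(Iio x) + 1 := by
      rw [← Iio_union_right]
      refine (mk_union_le _ _).trans ?_
      rw [mk_singleton]
    exact h1.trans_lt (add_lt_of_lt hκ.le (hiio x) (one_lt_aleph0.trans hκ))
  have hbdd : ∀ S : Set κ.ord.ToType, #S < κ → ∃ b, ∀ x ∈ S, x < b := by
    intro S hS
    by_contra hcon
    push Not at hcon
    have h1 : (⋂ x, ⋂ _ : x ∈ S, ((Iic x)ᶜ : Set κ.ord.ToType)) ∈
        (U : Filter κ.ord.ToType) :=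
      (cardinal_bInter_mem hS (s := fun x _ => ((Iic x)ᶜ : Set κ.ord.ToType))).2
        (fun x _ => compl_mem_of_small U hU (Iic x) (hiic x))
    obtain ⟨b, hb⟩ := Ultrafilter.nonempty_of_mem (f := U) h1
    obtain ⟨x, hxS, hbx⟩ := hcon b
    simp only [mem_iInter, mem_compl_iff, mem_Iic] at hb
    exact hb x hxS hbx
  have hsl : ∀ c < κ, 2 ^ c < κ := by
    intro c hc
    by_contra hcon
    push Not at hcon
    induction c using Cardinal.inductionOn with
    | _ Y =>
      rw [← mk_set, ← hcard] at hcon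
      obtain ⟨j⟩ := hcon
      classical
      let B : Y → Set κ.ord.ToType := fun y =>
        if {x | y ∈ j x} ∈ U then {x | y ∈ j x} else {x | y ∈ j x}ᶜ
      have hB : ∀ y, B y ∈ (U : Filter κ.ord.ToType) := by
        intro y
        simp only [B]
        split_ifs with h
        · exact h
        · exact Ultrafilter.compl_mem_iff_notMem.2 h
      have h1 : (⋂ y, B y) ∈ (U : Filter κ.ord.ToType) := (cardinal_iInter_mem hc).2 hB
      have h2 : ∀ x ∈ (⋂ y, B y), j x = {y | {x | y ∈ j x} ∈ U} := by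
        intro x hx
        ext y
        have hxy := mem_iInter.1 hx y
        simp only [B] at hxy
        by_cases h : {x | y ∈ j x} ∈ U
        · rw [if_pos h] at hxy
          exact ⟨fun _ => h, fun _ => hxy⟩
        · rw [if_neg h] at hxy
          exact ⟨fun h' => absurd h' hxy, fun h' => absurd h' h⟩
      obtain ⟨x0, hx0⟩ := Ultrafilter.nonempty_of_mem (f := U) h1
      apply hU x0
      refine mem_of_superset (f := (U : Filter κ.ord.ToType)) h1 ?_
      intro x hx
      apply j.injective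
      rw [h2 x hx, h2 x0 hx0]
  have hcof : κ ≤ κ.ord.cof := by
    rw [← Ordinal.cof_toType, Order.le_cof_iff]
    intro s hs
    by_contra hcon
    push Not at hcon
    obtain ⟨b, hb⟩ := hbdd s hcon
    obtain ⟨x, hx, hbx⟩ := hs b
    exact absurd (hb x hx) (not_lt.2 hbx)
  have hsub0 : #{s : Set κ.ord.ToType // #s < κ} ≤ κ := by
    have h1 : IsStrongPrelimit #κ.ord.ToType := by
      intro c hc
      rw [hcard] at hc ⊢
      exact hsl c hc
    have h2 := mk_subset_mk_lt_cof h1
    rw [hcard] at h2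
    refine le_trans ?_ h2.le
    apply mk_subtype_le_of_subset
    intro s hs
    exact lt_of_lt_of_le hs hcof
  refine ⟨inferInstance, hcard, hiio, hbdd, hκ, hsl, ?_⟩
  intro X hX
  rw [← hcard] at hX
  obtain ⟨f⟩ := hX
  refine le_trans ?_ hsub0
  refine mk_le_of_injective (f := fun s : {s : Set X // #s < κ} =>
    (⟨f '' s.1, mk_image_le.trans_lt s.2⟩ : {s : Set κ.ord.ToType // #s < κ})) ?_
  intro s t hst
  have : f '' s.1 = f '' t.1 := congrArg Subtype.val hst
  exact Subtype.ext (f.injective.image_injective this)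

/-! ### Trees, special sets and small sets -/

/-- A tree: the predecessors of every node form a well-ordered chain. -/
def IsTree (T : Type u) [PartialOrder T] : Prop :=
  ∀ x : T, IsChain (· ≤ ·) (Iio x) ∧ (Iio x).WellFoundedOn (· < ·)

section Trees

variable {κ : Cardinal.{u}} {K : Type u} [LinearOrder K] {T : Type u} [PartialOrder T]

theorem IsTree.wf (h : IsTree T) : WellFounded (fun a b : T => a < b) := by
  refine ⟨fun x => ?_⟩
  refine ⟨_, fun y hy => ?_⟩
  have h2 := (h x).2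
  have h3 : ∀ z : T, z < x → Acc (fun a b : T => a < b) z := by
    intro z hz
    have h4 := h2.induction (P := fun z => Acc (fun a b : T => a < b) z) hz ?_
    · exact h4
    · intro w hw ih
      exact ⟨_, fun v hv => ih v (lt_trans hv hw) hv⟩
  exact h3 y hy

theorem IsTree.total (h : IsTree T) {a b t : T} (ha : a ≤ t) (hb : b ≤ t) :
    a ≤ b ∨ b ≤ a := by
  rcases ha.lt_or_eq with ha | rfl
  · rcases hb.lt_or_eq with hb | rfl
    · exact (h t).1.total ha hb
    · exact Or.inl ha.le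
  · exact Or.inr hb

variable (K) in
/-- `S` is a union of at most `κ` antichains. -/
def Spec (S : Set T) : Prop := ∃ f : T → K, ∀ x ∈ S, ∀ y ∈ S, x < y → f x ≠ f y

theorem Spec.of_card (h : MC κ K) {X : Type u} (hX : #X ≤ κ) {S : Set T} (f : T → X)
    (hf : ∀ x ∈ S, ∀ y ∈ S, x < y → f x ≠ f y) : Spec K S := by
  rw [← h.card] at hX
  obtain ⟨e⟩ := hX
  exact ⟨fun x => e (f x), fun x hx y hy hxy he => hf x hx y hy hxy (e.injective he)⟩

variable (K) in
/-- `S` is small: it carries a regressive map all of whose fibres are special. -/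
def Small (S : Set T) : Prop :=
  ∃ f : T → T, (∀ x ∈ S, f x < x) ∧ ∀ s, Spec K {x | x ∈ S ∧ f x = s}

omit [LinearOrder K] in
theorem Small.mono {S S' : Set T} (h : Small K S) (hS : S' ⊆ S) : Small K S' := by
  obtain ⟨f, hf, hs⟩ := h
  refine ⟨f, fun x hx => hf x (hS hx), fun s => ?_⟩
  obtain ⟨g, hg⟩ := hs s
  exact ⟨g, fun x hx y hy => hg x ⟨hS hx.1, hx.2⟩ y ⟨hS hy.1, hy.2⟩⟩

theorem small_iUnion (h : MC κ K) {ι : Type u} (hι : #ι ≤ κ) (S : ι → Set T)
    (hS : ∀ i, Small K (S i)) : Small K (⋃ i, S i) := by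
  classical
  rcases isEmpty_or_nonempty ι with he | ⟨⟨i0⟩⟩
  · refine ⟨id, fun x hx => ?_, fun s => ?_⟩
    · obtain ⟨i, -⟩ := mem_iUnion.1 hx
      exact (he.false i).elim
    · refine Spec.of_card h (X := K) h.card.le (fun _ => ?_) ?_
      · exact (h.bdd ∅ (by rw [mk_eq_zero]; exact aleph0_pos.trans h.unc)).choose
      · intro x hx
        obtain ⟨i, -⟩ := mem_iUnion.1 hx.1
        exact (he.false i).elim
  choose f hf g hg using hS
  let I : T → ι := fun x => if hx : ∃ i, x ∈ S i then hx.choose else i0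
  have hI : ∀ x ∈ ⋃ i, S i, x ∈ S (I x) := by
    intro x hx
    have hx' : ∃ i, x ∈ S i := mem_iUnion.1 hx
    simp only [I, dif_pos hx']
    exact hx'.choose_spec
  refine ⟨fun x => f (I x) x, fun x hx => hf _ x (hI x hx), fun s => ?_⟩
  refine Spec.of_card h (X := ι × K) (h.prod_le hι h.card.le) (fun x => (I x, g (I x) s x)) ?_
  rintro x ⟨hx, hxs⟩ y ⟨hy, hys⟩ hxy heq
  have h1 : I x = I y := congrArg Prod.fst heq
  have h2 : g (I x) s x = g (I y) s y := congrArg Prod.snd heq
  rw [← h1] at h2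
  refine hg (I x) s x ⟨hI x hx, hxs⟩ y ⟨?_, ?_⟩ hxy h2
  · rw [h1]; exact hI y hy
  · rw [h1]; exact hys

variable (κ) in
/-- Nodes of cofinality at least `κ`. -/
def Cof (ζ : T) : Prop := ∀ Q : Set T, Q ⊆ Iio ζ → #Q < κ → ∃ s < ζ, ∀ q ∈ Q, q < s

/-- The coding lemma: if the nodes of cofinality at least `κ` form a small set then the
whole tree is special. -/
theorem special_of_small_cof (h : MC κ K) (hT : IsTree T) (hs : Small K {ζ : T | Cof κ ζ}) :
    Spec K (univ : Set T) := by
  classical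
  obtain ⟨f, hf, hg⟩ := hs
  choose g hg using hg
  have hX : #({s : Set K // #s < κ} ⊕ (K × K)) ≤ κ :=
    h.sum_le (h.sub K h.card.le) (h.prod_le h.card.le h.card.le)
  obtain ⟨Φ⟩ := hX.trans h.card.ge
  have hC : ∀ t : T, ∃ C : Set T, C ⊆ Iio t ∧ #C < κ ∧
      (¬ Cof κ t → ∀ s < t, ∃ q ∈ C, ¬ q < s) := by
    intro t
    by_cases ht : Cof κ t
    · refine ⟨∅, empty_subset _, ?_, fun h => absurd ht h⟩
      rw [mk_eq_zero]; exact aleph0_pos.trans h.unc
    · have ht' := ht
      unfold Cof at ht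
      push Not at ht
      obtain ⟨C, h1, h2, h3⟩ := ht
      exact ⟨C, h1, h2, fun _ => h3⟩
  choose C hC1 hC2 hC3 using hC
  have x0 : K := (h.bdd ∅ (by rw [mk_eq_zero]; exact aleph0_pos.trans h.unc)).choose
  obtain ⟨code, hcode⟩ := rec_exists hT.wf x0
    (fun t cd x => (Cof κ t → x = Φ (Sum.inr (cd (f t), g (f t) t))) ∧
      (¬ Cof κ t → x = Φ (Sum.inl ⟨cd '' C t, mk_image_le.trans_lt (hC2 t)⟩)))
    (by
      intro t cd _
      by_cases ht : Cof κ t
      · exact ⟨_, fun _ => rfl, fun h => absurd ht h⟩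
      · exact ⟨_, fun h => absurd h ht, fun _ => rfl⟩)
  have hc1 : ∀ t, Cof κ t → code t = Φ (Sum.inr (code (f t), g (f t) t)) := by
    intro t ht
    rw [(hcode t).1 ht, restr_of (hf t ht)]
  have hc2 : ∀ t, ¬ Cof κ t →
      code t = Φ (Sum.inl ⟨code '' C t, mk_image_le.trans_lt (hC2 t)⟩) := by
    intro t ht
    rw [(hcode t).2 ht]
    congr 2
    apply Subtype.ext
    simp only
    apply image_congr
    intro q hq
    exact restr_of (hC1 t hq)
  have main : ∀ t : T, ∀ a, a < t → code a ≠ code t := by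
    intro t
    induction t using hT.wf.induction with
    | _ t ih =>
      intro a hat heq
      -- elements strictly below `t` with equal codes are equal
      have key : ∀ x y, x < t → y < t → code x = code y → x = y := by
        intro x y hx hy hxy
        rcases hT.total hx.le hy.le with hle | hle
        · rcases hle.lt_or_eq with hlt | rfl
          · exact absurd hxy (ih y hy x hlt)
          · rfl
        · rcases hle.lt_or_eq with hlt | rfl
          · exact absurd hxy.symm (ih x hx y hlt)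
          · rfl
      by_cases ha : Cof κ a
      · by_cases ht : Cof κ t
        · rw [hc1 a ha, hc1 t ht] at heq
          have h1 := Sum.inr.inj (Φ.injective heq)
          have h2 : code (f a) = code (f t) := congrArg Prod.fst h1
          have h3 : g (f a) a = g (f t) t := congrArg Prod.snd h1
          have h4 : f a = f t := key _ _ ((hf a ha).trans hat) (hf t ht) h2
          rw [h4] at h3
          exact hg (f t) a ⟨ha, h4⟩ t ⟨ht, rfl⟩ hat h3
        · rw [hc1 a ha, hc2 t ht] at heq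
          exact absurd (Φ.injective heq) Sum.inr_ne_inl
      · by_cases ht : Cof κ t
        · rw [hc2 a ha, hc1 t ht] at heq
          exact absurd (Φ.injective heq) Sum.inl_ne_inr
        · rw [hc2 a ha, hc2 t ht] at heq
          have h1 := congrArg Subtype.val (Sum.inl.inj (Φ.injective heq))
          simp only at h1
          obtain ⟨q, hq, hqa⟩ := hC3 t ht a hat
          have h2 : code q ∈ code '' C a := by rw [h1]; exact mem_image_of_mem _ hq
          obtain ⟨q', hq', h3⟩ := h2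
          have h4 : q' = q := key _ _ ((hC1 a hq').trans hat) (hC1 t hq) h3
          rw [h4] at hq'
          exact hqa (hC1 a hq')
  exact ⟨code, fun x _ y _ hxy => main y x hxy⟩

/-- Pressing down: for most nodes `ζ` of cofinality at least `κ` every small amount of
information about `ζ` is shared by some node below `ζ`. -/
theorem small_of_reflect (h : MC κ K) (hI : ∀ t : T, #(Iio t) ≤ κ)
    {Z O : Type u} (hZ : #Z ≤ κ) (hO : #O ≤ κ) (c : T → Z) (obs : T → T → O) (S : Set T)
    (hS : ∀ ζ ∈ S, Cof κ ζ ∧ ∃ Q : Set T, Q ⊆ Iio ζ ∧ #Q < κ ∧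
      ∀ η < ζ, c η = c ζ → (∀ q ∈ Q, q < η → obs q η = obs q ζ) → (∀ q ∈ Q, q < η) → False) :
    Small K S := by
  classical
  have hS1 : ∀ ζ : T, ∃ (Q : Set T) (s : T), ζ ∈ S → s < ζ ∧ (∀ q ∈ Q, q < s) ∧ #Q < κ ∧
      ∀ η < ζ, c η = c ζ → (∀ q ∈ Q, q < η → obs q η = obs q ζ) →
        (∀ q ∈ Q, q < η) → False := by
    intro ζ
    by_cases hζ : ζ ∈ S
    · obtain ⟨h1, Q, h2, h3, h4⟩ := hS ζ hζ
      obtain ⟨s, h5, h6⟩ := h1 Q h2 h3
      exact ⟨Q, s, fun _ => ⟨h5, h6, h3, h4⟩⟩
    · exact ⟨∅, ζ, fun h => absurd h hζ⟩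
  choose Q s hQ using hS1
  refine ⟨s, fun ζ hζ => (hQ ζ hζ).1, fun s0 => ?_⟩
  let X : Type u := {A : Set ((Iio s0) × O) // #A < κ} × Z
  have hX : #X ≤ κ := h.prod_le (h.sub _ (h.prod_le (hI s0) hO)) hZ
  have h0 : #(∅ : Set ((Iio s0) × O)) < κ := by
    rw [mk_eq_zero]; exact aleph0_pos.trans h.unc
  let G : T → Set ((Iio s0) × O) := fun ζ => {p | p.1.1 ∈ Q ζ ∧ obs p.1.1 ζ = p.2}
  have hG : ∀ ζ ∈ S, #(G ζ) < κ := by
    intro ζ hζ
    have h1 : #(G ζ) ≤ #(Q ζ) := by
      refine mk_le_of_injective (f := fun p : G ζ => (⟨p.1.1.1, p.2.1⟩ : Q ζ)) ?_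
      rintro ⟨⟨⟨a, ha⟩, o⟩, hp⟩ ⟨⟨⟨b, hb⟩, o'⟩, hp'⟩ hab
      simp only [Subtype.mk.injEq] at hab
      subst hab
      have h2 : o = o' := by
        have e1 : obs a ζ = o := hp.2
        have e2 : obs a ζ = o' := hp'.2
        rw [← e1, ← e2]
      subst h2
      rfl
    exact h1.trans_lt (hQ ζ hζ).2.2.1
  refine Spec.of_card h hX
    (fun ζ => ((if hζ : ζ ∈ S then ⟨G ζ, hG ζ hζ⟩ else ⟨∅, h0⟩ : {A : Set ((Iio s0) × O) // #A < κ}),
      c ζ)) ?_
  rintro η ⟨hη, hηs⟩ ζ ⟨hζ, hζs⟩ hlt heq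
  have h1 : c η = c ζ := congrArg Prod.snd heq
  have h2 := congrArg Prod.fst heq
  simp only [dif_pos hη, dif_pos hζ] at h2
  have h3 : G η = G ζ := congrArg Subtype.val h2
  obtain ⟨h4, h5, -, h6⟩ := hQ ζ hζ
  have h7 : ∀ q ∈ Q ζ, q < η ∧ obs q η = obs q ζ := by
    intro q hq
    have hqs : q < s0 := hζs ▸ h5 q hq
    have h8 : ((⟨q, hqs⟩ : Iio s0), obs q ζ) ∈ G ζ := ⟨hq, rfl⟩
    rw [← h3] at h8
    refine ⟨?_, h8.2⟩
    have h9 := (hQ η hη).1
    rw [hηs] at h9
    exact hqs.trans h9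
  exact h6 η hlt h1 (fun q hq _ => (h7 q hq).2) (fun q hq => (h7 q hq).1)

/-- Existence of complete ultrafilters concentrating below a node. -/
theorem exists_ultrafilter (h : MC κ K) (U : Ultrafilter K)
    [hUc : CardinalInterFilter (U : Filter K) κ] (hU : ∀ x, {x} ∉ U)
    {O : Type u} (obs : T → T → O) (ζ : T) (hI : #(Iio ζ) ≤ κ) (A : Set T)
    (hA : ∀ Q : Set T, Q ⊆ Iio ζ → #Q < κ →
      ∃ η ∈ A, η < ζ ∧ ∀ q ∈ Q, q < η ∧ obs q η = obs q ζ) :
    ∃ W : Ultrafilter T, CardinalInterFilter (W : Filter T) κ ∧ A ∈ W ∧ Iio ζ ∈ W ∧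
      ∀ q < ζ, {η | q < η ∧ obs q η = obs q ζ} ∈ W := by
  classical
  obtain ⟨η0, -, hη0, -⟩ := hA ∅ (empty_subset _)
    (by rw [mk_eq_zero]; exact aleph0_pos.trans h.unc)
  have hne : Nonempty (Iio ζ) := ⟨⟨η0, hη0⟩⟩
  obtain ⟨e, he⟩ : ∃ e : K → Iio ζ, Function.Surjective e := by
    rw [← h.card] at hI
    obtain ⟨j⟩ := hI
    exact ⟨Function.invFun j, Function.invFun_surjective j.injective⟩
  have hx : ∀ ξ : K, ∃ η ∈ A, η < ζ ∧ ∀ q ∈ (fun i => (e i : T)) '' (Iic ξ),
      q < η ∧ obs q η = obs q ζ := by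
    intro ξ
    apply hA
    · rintro _ ⟨i, -, rfl⟩
      exact (e i).2
    · exact mk_image_le.trans_lt (h.iic ξ)
  choose x hx1 hx2 hx3 using hx
  refine ⟨U.map x, ⟨?_⟩, ?_, ?_, ?_⟩
  · intro S hS hSm
    have h1 : (⋂ s : S, x ⁻¹' s.1) ∈ (U : Filter K) :=
      (cardinal_iInter_mem hS).2 (fun s => hSm s.1 s.2)
    change x ⁻¹' (⋂₀ S) ∈ (U : Filter K)
    refine mem_of_superset h1 ?_
    intro ξ hξ s hs
    exact mem_iInter.1 hξ ⟨s, hs⟩
  · exact univ_mem' (f := (U : Filter K)) (s := x ⁻¹' A) hx1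
  · exact univ_mem' (f := (U : Filter K)) (s := x ⁻¹' (Iio ζ)) hx2
  · intro q hq
    obtain ⟨ξ0, hξ0⟩ := he ⟨q, hq⟩
    have h1 : (Iio ξ0)ᶜ ∈ (U : Filter K) := compl_mem_of_small U hU _ (h.iio ξ0)
    change x ⁻¹' _ ∈ (U : Filter K)
    refine mem_of_superset h1 ?_
    intro ξ hξ
    have hξ' : ξ0 ≤ ξ := not_lt.1 hξ
    exact hx3 ξ q ⟨ξ0, hξ', by simp [hξ0]⟩

end Trees

end Pool.MTree
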