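import Pool.Agent.Work.MTree.Lists

/-!
The construction of the homogeneous chain.
-/

set_option autoImplicit false

universe u

open Cardinal Set Filter

namespace Pool.MTree

section Index

variable {K : Type u} [LinearOrder K]

/-- The exponent of an index list. -/
def ex (τ0 : K) : List (K ×ₗ K) → K
  | [] => τ0
  | x :: _ => (ofLex x).2

/-- Valid index lists: the exponents decrease. -/
def Val (τ0 : K) : List (K ×ₗ K) → Prop
  | [] => True
  | x :: a => Val τ0 a ∧ (ofLex x).2 < ex τ0 a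

theorem Val.ex_le {τ0 : K} : ∀ {a : List (K ×ₗ K)}, Val τ0 a → ex τ0 a ≤ τ0
  | [], _ => le_rfl
  | _ :: _, h => (h.2.trans_le (Val.ex_le h.1)).le

theorem Val.mem_lt {τ0 : K} : ∀ {a : List (K ×ₗ K)}, Val τ0 a → ∀ x ∈ a, (ofLex x).2 < τ0
  | [], _, x, hx => by simp at hx
  | y :: a, h, x, hx => by
    rcases List.mem_cons.1 hx with rfl | hx
    · exact h.2.trans_le (Val.ex_le h.1)
    · exact Val.mem_lt h.1 x hx

end Index

section States

variable {K : Type u} [LinearOrder K] [WellFoundedLT K]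
  {Λ : Type u} [LinearOrder Λ] {k : ℕ}

theorem exists_states {f : List Λ → Fin k} {i : Fin k} {τ0 : K} {B0 : Set Λ}
    {Q0 : Set (List Λ)} (hV : Valid f i τ0 B0 Q0) (hB0 : IsLowerSet B0) :
    ∃ (p : List (K ×ₗ K) → List Λ) (B : List (K ×ₗ K) → Set Λ)
      (Q : List (K ×ₗ K) → Set (List Λ)), B [] = B0 ∧ Q [] = Q0 ∧
      (∀ a, Val τ0 a → IsLowerSet (B a) ∧ Valid f i (ex τ0 a) (B a) (Q a)) ∧
      (∀ x a, Val τ0 (x :: a) → p (x :: a) ≠ [] ∧ Path (B a) (p (x :: a)) (B (x :: a)) ∧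
        ∀ q ∈ Q (x :: a), p (x :: a) ++ q ∈ Q a) := by
  classical
  -- the choice of a child
  have hchild : ∀ (τ : K) (B : Set Λ) (Q : Set (List Λ)) (τ' : K),
      ∃ s : List Λ × Set Λ × Set (List Λ), Valid f i τ B Q → τ' < τ →
        s.1 ≠ [] ∧ Path B s.1 s.2.1 ∧ Valid f i τ' s.2.1 s.2.2 ∧ ∀ q ∈ s.2.2, s.1 ++ q ∈ Q := by
    intro τ B Q τ'
    by_cases h : Valid f i τ B Q ∧ τ' < τ
    · obtain ⟨h1, h2⟩ := h
      rw [Valid_iff] at h1
      rcases h1 with ⟨h1, -⟩ | ⟨-, -, h1⟩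
      · exact absurd h2 (fun h3 => h1.not_lt h3)
      · obtain ⟨p, B', Q', h3, h4, h5, h6⟩ := h1 τ' h2
        exact ⟨(p, B', Q'), fun _ _ => ⟨h3, h4, h5, h6⟩⟩
    · exact ⟨([], ∅, ∅), fun h1 h2 => absurd ⟨h1, h2⟩ h⟩
  choose ch hch using hchild
  let st : List (K ×ₗ K) → List Λ × Set Λ × Set (List Λ) := fun a =>
    List.rec (motive := fun _ => List Λ × Set Λ × Set (List Λ)) ([], B0, Q0)
      (fun x a s => ch (ex τ0 a) s.2.1 s.2.2 (ofLex x).2) a
  have hst0 : st [] = ([], B0, Q0) := rfl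
  have hst : ∀ x a, st (x :: a) = ch (ex τ0 a) (st a).2.1 (st a).2.2 (ofLex x).2 :=
    fun x a => rfl
  have hmain : ∀ a, Val τ0 a → IsLowerSet (st a).2.1 ∧
      Valid f i (ex τ0 a) (st a).2.1 (st a).2.2 := by
    intro a
    induction a with
    | nil => exact fun _ => ⟨hB0, hV⟩
    | cons x a ih =>
      intro ha
      obtain ⟨h1, h2⟩ := ih ha.1
      obtain ⟨-, h4, h5, -⟩ := hch _ _ _ (ofLex x).2 h2 ha.2
      rw [← hst] at h4 h5
      exact ⟨(h4.props h1).2.1, h5⟩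
  refine ⟨fun a => (st a).1, fun a => (st a).2.1, fun a => (st a).2.2, rfl, rfl, hmain, ?_⟩
  intro x a ha
  obtain ⟨h1, h2⟩ := hmain a ha.1
  obtain ⟨h3, h4, h5, h6⟩ := hch _ _ _ (ofLex x).2 h2 ha.2
  rw [← hst] at h3 h4 h5 h6
  exact ⟨h3, h4, h6⟩

end States

section Mx

variable {K : Type u} [LinearOrder K]

/-- The largest first coordinate of an index list. -/
def mxl (b0 : K) : List (K ×ₗ K) → K
  | [] => b0
  | x :: a => max (ofLex x).1 (mxl b0 a)

theorem mxl_cons (b0 : K) (x : K ×ₗ K) (a : List (K ×ₗ K)) : mxl b0 a ≤ mxl b0 (x :: a) :=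
  le_max_right _ _

theorem mxl_sib (b0 : K) (x y : K ×ₗ K) (a : List (K ×ₗ K)) (h : x < y) :
    mxl b0 (x :: a) ≤ mxl b0 (y :: a) := by
  refine max_le_max ?_ le_rfl
  rcases Prod.Lex.lt_iff.1 h with h1 | ⟨h1, -⟩
  · exact h1.le
  · exact h1.le

theorem le_mxl (b0 : K) : ∀ (a : List (K ×ₗ K)), ∀ x ∈ a, (ofLex x).1 ≤ mxl b0 a
  | [], x, hx => by simp at hx
  | y :: a, x, hx => by
    rcases List.mem_cons.1 hx with rfl | hx
    · exact le_max_left _ _
    · exact (le_mxl b0 a x hx).trans (le_max_right _ _)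

theorem mk_below {κ : Cardinal.{u}} (h : MC κ K) (b0 τ0 : K) (b : List (K ×ₗ K)) :
    #{a : List (K ×ₗ K) // Pre (mxl b0) a b ∧ Val τ0 a} < κ := by
  have h0 : #{x : K ×ₗ K // (ofLex x).1 ≤ mxl b0 b ∧ (ofLex x).2 < τ0} < κ := by
    refine lt_of_le_of_lt ?_ (h.prod_lt (h.iic (mxl b0 b)) (h.iio τ0))
    refine mk_le_of_injective (f := fun x :
      {x : K ×ₗ K // (ofLex x).1 ≤ mxl b0 b ∧ (ofLex x).2 < τ0} =>
      ((⟨(ofLex x.1).1, x.2.1⟩, ⟨(ofLex x.1).2, x.2.2⟩) : Iic (mxl b0 b) × Iio τ0)) ?_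
    intro x y hxy
    apply Subtype.ext
    apply ofLex.injective
    have h1 := congrArg (fun z => (z.1.1, z.2.1)) hxy
    exact h1
  have h1 := h.list_lt h0
  have hP : ∀ a : {a : List (K ×ₗ K) // Pre (mxl b0) a b ∧ Val τ0 a}, ∀ x ∈ a.1,
      (ofLex x).1 ≤ mxl b0 b ∧ (ofLex x).2 < τ0 := by
    rintro ⟨a, ha1, ha2⟩ x hx
    refine ⟨(le_mxl b0 a x hx).trans ?_, ha2.mem_lt x hx⟩
    rw [pre_iff] at ha1
    rcases ha1 with h2 | ⟨h2, -⟩
    · exact h2.le
    · exact h2.le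
  refine lt_of_le_of_lt ?_ h1
  refine mk_le_of_injective (f := fun a : {a : List (K ×ₗ K) // Pre (mxl b0) a b ∧ Val τ0 a} =>
    (a.1.attachWith _ (hP a) :
      List {x : K ×ₗ K // (ofLex x).1 ≤ mxl b0 b ∧ (ofLex x).2 < τ0})) ?_
  intro a a' haa
  apply Subtype.ext
  have h2 := congrArg (List.map Subtype.val) haa
  simp only [List.attachWith_map_subtype_val] at h2
  exact h2

end Mx

section Nodes

variable {κ : Cardinal.{u}} {K : Type u} [LinearOrder K] [WellFoundedLT K]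
  {T : Type u} [PartialOrder T] {Λ : Type u} [LinearOrder Λ] {k : ℕ}

theorem exists_nodes (h : MC κ K) (hΛ : #Λ < κ) {c : T → T → Fin k} {D : T → Dat T Λ}
    (hD : IsSystem κ c D) {f : List Λ → Fin k} {i : Fin k} {τ0 : K} {B0 : Set Λ}
    {Q0 : Set (List Λ)} (hV : Valid f i τ0 B0 Q0) (hB0 : IsLowerSet B0)
    (hroot : ∃ η, NB c D f B0 η) :
    ∃ t : List (K ×ₗ K) → T, ∀ a b, Val τ0 a → Val τ0 b → Bef a b → t a < t b ∧
      (IsMin (ex τ0 a) → c (t a) (t b) = i) := by
  classical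
  obtain ⟨p, B, Q, hB1, hQ1, hst, hch⟩ := exists_states hV hB0
  obtain ⟨η0, hη0⟩ := hroot
  obtain ⟨b0, hb0⟩ : ∃ b0 : K, IsMin b0 := by
    obtain ⟨m, -, hm⟩ := (wellFounded_lt (α := K)).has_min univ ⟨τ0, mem_univ _⟩
    exact ⟨m, fun b hb => not_lt.1 (hm b (mem_univ _))⟩
  have hmx : ∀ (x : K ×ₗ K) (a : List (K ×ₗ K)), mxl b0 a ≤ mxl b0 (x :: a) := mxl_cons b0
  let Pr : List (K ×ₗ K) → (List (K ×ₗ K) → T) → T → Prop := fun b W x =>
    Val τ0 b → NB c D f (B b) x ∧ ∀ a, Pre (mxl b0) a b → Val τ0 a →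
      (Bef a b → W a < x ∧ ∀ q ∈ Q a, obs c D (W a) x q = i) ∧
      (Bef b a → x < W a ∧ ∀ q ∈ Q b, obs c D x (W a) q = i)
  obtain ⟨t, ht⟩ := rec_exists (pre_wf (mx := mxl b0)) η0 Pr (by
    intro b W ih
    by_cases hb : Val τ0 b
    swap
    · exact ⟨η0, fun h' => absurd h' hb⟩
    -- clean form of the induction hypothesis
    have ihN : ∀ a, Pre (mxl b0) a b → Val τ0 a → NB c D f (B a) (W a) :=
      fun a ha hva => (ih a ha hva).1
    have ihR : ∀ a a', Pre (mxl b0) a b → Pre (mxl b0) a' b → Val τ0 a → Val τ0 a' →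
        Bef a a' → W a < W a' ∧ ∀ q ∈ Q a, obs c D (W a) (W a') q = i := by
      intro a a' ha ha' hva hva' hbef
      have hne : a ≠ a' := fun h' => bef_irrefl a' (h' ▸ hbef)
      rcases pre_total (mx := mxl b0) hne with h1 | h1
      · have h2 := ((ih a' ha' hva').2 a h1 hva).1 hbef
        rwa [restr_of h1] at h2
      · have h2 := ((ih a ha hva).2 a' h1 hva').2 hbef
        rwa [restr_of h1] at h2
    cases b with
    | nil =>
      refine ⟨η0, fun _ => ⟨by rw [hB1]; exact hη0, fun a ha _ => ?_⟩⟩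
      exfalso
      rw [pre_iff] at ha
      rcases ha with h1 | ⟨-, h1⟩
      · exact absurd (mx_le_of_suffix hmx (List.nil_suffix (l := a))) (not_le.2 h1)
      · exact List.not_shortlex_nil_right h1
    | cons y pa =>
      have hvp : Val τ0 pa := hb.1
      have hpre : Pre (mxl b0) pa (y :: pa) :=
        pre_of_suffix hmx (List.suffix_cons y pa) (by simp)
      obtain ⟨hpp1, hpp2, hpp3⟩ := hch y pa hb
      obtain ⟨hlow, hval⟩ := hst pa hvp
      have hNp := ihN pa hpre hvp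
      obtain ⟨hcomp, h1, h2, h3⟩ := typical hD f hpp2 hlow (W pa) hNp
      have hnm : ¬ IsMin (ex τ0 pa) := fun h' => h'.not_lt hb.2
      have hQp : ∀ q ∈ Q pa, f q = i ∧ ∀ x ∈ q, x ∈ B pa := by
        have h4 := hval
        rw [Valid_iff] at h4
        rcases h4 with ⟨h4, -⟩ | ⟨-, h4, -⟩
        · exact absurd h4 hnm
        · exact h4
      -- what is needed for the right neighbours
      have hright : ∀ a, Pre (mxl b0) a (y :: pa) → Val τ0 a → Bef (y :: pa) a →
          W pa ≤ W a ∧ ∀ q ∈ Q pa, obs c D (W pa) (W a) q = i := by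
        intro a ha hva hbef
        rcases bef_parent_right hmx (fun z hz => mxl_sib b0 y z pa hz) ha hbef with h4 | h4
        · subst h4
          refine ⟨le_rfl, fun q hq => ?_⟩
          have h5 := hNp.2 q (hQp q hq).2
          rw [(hQp q hq).1] at h5
          exact h5
        · have h5 := ihR pa a hpre ha hvp hva h4
          exact ⟨h5.1.le, h5.2⟩
      have hbelow := mk_below h b0 τ0 (y :: pa)
      have hQcard : #(Q (y :: pa)) < κ := (mk_set_le _).trans_lt (h.list_lt hΛ)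
      have e1 : ∀ᶠ η in ((D (W pa)).V (p (y :: pa)) : Filter T),
          ∀ a : {a : List (K ×ₗ K) // Pre (mxl b0) a (y :: pa) ∧ Val τ0 a},
            Bef a.1 (y :: pa) → W a.1 < η ∧ ∀ q ∈ Q a.1, obs c D (W a.1) η q = i := by
        rw [eventually_cardinal_forall hbelow]
        rintro ⟨a, ha, hva⟩
        by_cases hbef : Bef a (y :: pa)
        · have h4 := ihR a pa ha hpre hva hvp (bef_parent_left hmx ha hbef)
          filter_upwards [h2 (W a) h4.1] with η hη _
          refine ⟨hη.1, fun q hq => ?_⟩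
          rw [hη.2]
          exact h4.2 q hq
        · exact Eventually.of_forall (fun η h' => absurd h' hbef)
      have e2 : ∀ᶠ η in ((D (W pa)).V (p (y :: pa)) : Filter T),
          ∀ a : {a : List (K ×ₗ K) // Pre (mxl b0) a (y :: pa) ∧ Val τ0 a},
            Bef (y :: pa) a.1 → ∀ q : Q (y :: pa), obs c D η (W a.1) q.1 = i := by
        rw [eventually_cardinal_forall hbelow]
        rintro ⟨a, ha, hva⟩
        by_cases hbef : Bef (y :: pa) a
        · have h4 := (hright a ha hva hbef).2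
          have h5 : ∀ᶠ η in ((D (W pa)).V (p (y :: pa)) : Filter T),
              ∀ q : Q (y :: pa), obs c D η (W a) q.1 = i := by
            rw [eventually_cardinal_forall hQcard]
            rintro ⟨q, hq⟩
            have h6 := h4 _ (hpp3 q hq)
            unfold obs at h6
            rw [ulim_eq_iff] at h6
            have h7 := (h3 q {x | c x (W a) = i}).1 h6
            filter_upwards [h7] with η hη
            exact ulim_eq_iff.2 hη
          filter_upwards [h5] with η hη _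
          exact hη
        · exact Eventually.of_forall (fun η h' => absurd h' hbef)
      obtain ⟨η, hη1, hη2, hη3⟩ := (h1.and (e1.and e2)).exists
      refine ⟨η, fun _ => ⟨hη1.1, fun a ha hva => ⟨fun hbef => ?_, fun hbef => ?_⟩⟩⟩
      · rw [restr_of ha]
        exact hη2 ⟨a, ha, hva⟩ hbef
      · rw [restr_of ha]
        exact ⟨(hη1.2.2 hpp1).trans_le (hright a ha hva hbef).1,
          fun q hq => hη3 ⟨a, ha, hva⟩ hbef ⟨q, hq⟩⟩)
  refine ⟨t, fun a b ha hb hab => ?_⟩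
  have hne : a ≠ b := fun h' => bef_irrefl b (h' ▸ hab)
  have hfin : t a < t b ∧ ∀ q ∈ Q a, obs c D (t a) (t b) q = i := by
    rcases pre_total (mx := mxl b0) hne with h1 | h1
    · have h2 := ((ht b hb).2 a h1 ha).1 hab
      rwa [restr_of h1] at h2
    · have h2 := ((ht a ha).2 b h1 hb).2 hab
      rwa [restr_of h1] at h2
  refine ⟨hfin.1, fun hmin => ?_⟩
  have hval := (hst a ha).2
  rw [Valid_iff] at hval
  rcases hval with ⟨-, h1⟩ | ⟨h1, -⟩
  · have h2 := hfin.2 [] (by rw [h1]; exact mem_singleton _)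
    unfold obs at h2
    rw [hD.nil, ulim_eq_iff] at h2
    exact h2
  · exact absurd hmin h1

end Nodes

end Pool.MTree
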