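import Pool.Agent.Work.MTree.Shape

/-!
Index lists, their enumeration order, and the left-to-right order.
-/

set_option autoImplicit false

universe u

open Cardinal Set Filter

namespace Pool.MTree

section Orders

variable {P : Type u} [LinearOrder P]

/-- `a` lies to the left of `b` (lists are read from the end). -/
def LeftOf (a b : List P) : Prop := ∃ (c : List P) (x y : P), x < y ∧ (x :: c) <:+ a ∧ (y :: c) <:+ b

/-- `a` comes before `b`: `a` properly extends `b`, or `a` lies to the left of `b`. -/
def Bef (a b : List P) : Prop := (b <:+ a ∧ b ≠ a) ∨ LeftOf a b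

theorem suffix_trichotomy (a b : List P) :
    a <:+ b ∨ b <:+ a ∨ ∃ (c : List P) (x y : P), x ≠ y ∧ (x :: c) <:+ a ∧ (y :: c) <:+ b := by
  induction a with
  | nil => exact Or.inl (List.nil_suffix)
  | cons x a ih =>
    rcases ih with h | h | ⟨c, x', y', h1, h2, h3⟩
    · obtain ⟨d, hd⟩ := h
      rcases List.eq_nil_or_concat d with rfl | ⟨d', y, rfl⟩
      · right; left
        rw [List.nil_append] at hd
        rw [← hd]
        exact List.suffix_cons x a
      · have h4 : (y :: a) <:+ b := ⟨d', by rw [← hd]; simp⟩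
        by_cases hxy : x = y
        · left
          rw [hxy]
          exact h4
        · right; right
          exact ⟨a, x, y, hxy, List.suffix_rfl, h4⟩
    · right; left
      exact h.trans (List.suffix_cons x a)
    · right; right
      exact ⟨c, x', y', h1, h2.trans (List.suffix_cons x a), h3⟩

theorem bef_total {a b : List P} (h : a ≠ b) : Bef a b ∨ Bef b a := by
  rcases suffix_trichotomy a b with h1 | h1 | ⟨c, x, y, h1, h2, h3⟩
  · exact Or.inr (Or.inl ⟨h1, h⟩)
  · exact Or.inl (Or.inl ⟨h1, h.symm⟩)
  · rcases lt_or_gt_of_ne h1 with h4 | h4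
    · exact Or.inl (Or.inr ⟨c, x, y, h4, h2, h3⟩)
    · exact Or.inr (Or.inr ⟨c, y, x, h4, h3, h2⟩)

theorem bef_irrefl (a : List P) : ¬ Bef a a := by
  rintro (⟨-, h⟩ | ⟨c, x, y, hxy, h1, h2⟩)
  · exact h rfl
  · have h3 : x :: c = y :: c := by
      obtain ⟨d1, hd1⟩ := h1
      obtain ⟨d2, hd2⟩ := h2
      rw [← hd2] at hd1
      exact List.append_inj_right' hd1 (by simp)
    exact hxy.ne (List.cons.inj h3).1

/-- The enumeration order, relative to a bound `mx` on lists. -/
def Pre {K : Type u} [LinearOrder K] (mx : List P → K) (a b : List P) : Prop :=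
  Prod.Lex (fun x y : K => x < y) (List.Shortlex (fun x y : P => x < y)) (mx a, a) (mx b, b)

section PreFacts

variable {K : Type u} [LinearOrder K] {mx : List P → K}

theorem pre_iff {a b : List P} : Pre mx a b ↔
    mx a < mx b ∨ mx a = mx b ∧ List.Shortlex (fun x y : P => x < y) a b := by
  unfold Pre
  rw [Prod.lex_def]

theorem pre_wf [WellFoundedLT K] [WellFoundedLT P] : WellFounded (Pre (P := P) mx) := by
  have h1 : WellFounded (List.Shortlex (fun x y : P => x < y)) :=
    List.Shortlex.wf (wellFounded_lt)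
  have h2 : WellFounded (Prod.Lex (fun x y : K => x < y)
      (List.Shortlex (fun x y : P => x < y))) := WellFounded.prod_lex wellFounded_lt h1
  exact InvImage.wf (fun a : List P => (mx a, a)) h2

theorem pre_total {a b : List P} (h : a ≠ b) : Pre mx a b ∨ Pre mx b a := by
  rw [pre_iff, pre_iff]
  rcases lt_trichotomy (mx a) (mx b) with h1 | h1 | h1
  · exact Or.inl (Or.inl h1)
  · by_cases h2 : List.Shortlex (fun x y : P => x < y) a b
    · exact Or.inl (Or.inr ⟨h1, h2⟩)
    · by_cases h3 : List.Shortlex (fun x y : P => x < y) b a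
      · exact Or.inr (Or.inr ⟨h1.symm, h3⟩)
      · exact absurd (List.Shortlex.trichotomous.trichotomous a b h2 h3) h
  · exact Or.inr (Or.inl h1)

theorem pre_asymm {a b : List P} (h : Pre mx a b) : ¬ Pre mx b a := by
  rw [pre_iff] at h ⊢
  rintro (h2 | ⟨h2, h3⟩)
  · rcases h with h | ⟨h, -⟩
    · exact absurd h h2.asymm
    · exact absurd h h2.ne'
  · rcases h with h | ⟨-, h⟩
    · exact absurd h2 h.ne'
    · exact (List.Shortlex.asymm).asymm _ _ h h3

variable (hmx : ∀ (x : P) (a : List P), mx a ≤ mx (x :: a))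

include hmx

theorem mx_le_of_suffix {a b : List P} (h : a <:+ b) : mx a ≤ mx b := by
  obtain ⟨d, rfl⟩ := h
  induction d with
  | nil => exact le_rfl
  | cons x d ih => exact ih.trans (hmx x _)

theorem pre_of_suffix {a b : List P} (h : a <:+ b) (hne : a ≠ b) : Pre mx a b := by
  rw [pre_iff]
  rcases (mx_le_of_suffix hmx h).lt_or_eq with h1 | h1
  · exact Or.inl h1
  · refine Or.inr ⟨h1, List.Shortlex.of_length_lt ?_⟩
    refine lt_of_le_of_ne h.length_le ?_
    intro h2
    exact hne (h.eq_of_length h2)

theorem pre_of_pre_of_suffix {a b c : List P} (h : Pre mx a b) (h2 : b <:+ c) (hlen : a.length = b.length) :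
    Pre mx a c := by
  by_cases hbc : b = c
  · rwa [← hbc]
  · have h3 := mx_le_of_suffix hmx h2
    rw [pre_iff] at h ⊢
    rcases h with h | ⟨h, -⟩
    · exact Or.inl (lt_of_lt_of_le h h3)
    · rcases h3.lt_or_eq with h4 | h4
      · exact Or.inl (h ▸ h4)
      · refine Or.inr ⟨h.trans h4, List.Shortlex.of_length_lt ?_⟩
        rw [hlen]
        refine lt_of_le_of_ne h2.length_le ?_
        intro h5
        exact hbc (h2.eq_of_length h5)

/-- The first combinatorial fact about the enumeration. -/
theorem bef_parent_left {a p : List P} {y : P} (h : Pre mx a (y :: p)) (hb : Bef a (y :: p)) :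
    Bef a p := by
  rcases hb with ⟨h1, h2⟩ | ⟨c, x, y', h1, h2, h3⟩
  · exact absurd (pre_of_suffix hmx h1 h2) (pre_asymm h)
  · rcases List.suffix_cons_iff.1 h3 with h4 | h4
    · obtain ⟨rfl, rfl⟩ := List.cons.inj h4
      left
      have h5 : c <:+ a := (List.suffix_cons x c).trans h2
      refine ⟨h5, ?_⟩
      intro h6
      have h7 := h2.length_le
      rw [← h6] at h7
      simp at h7
    · exact Or.inr ⟨c, x, y', h1, h2, h4⟩

/-- The second combinatorial fact about the enumeration. -/
theorem bef_parent_right {a p : List P} {y : P}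
    (hsib : ∀ z, y < z → mx (y :: p) ≤ mx (z :: p)) (h : Pre mx a (y :: p))
    (hb : Bef (y :: p) a) : a = p ∨ Bef p a := by
  rcases hb with ⟨h1, h2⟩ | ⟨c, x, z, h1, h2, h3⟩
  · rcases List.suffix_cons_iff.1 h1 with h4 | h4
    · exact absurd h4 h2
    · by_cases h5 : a = p
      · exact Or.inl h5
      · exact Or.inr (Or.inl ⟨h4, h5⟩)
  · rcases List.suffix_cons_iff.1 h2 with h4 | h4
    · exfalso
      obtain ⟨rfl, rfl⟩ := List.cons.inj h4
      have h5 : Pre mx (x :: c) (z :: c) := by
        rw [pre_iff]
        rcases (hsib z h1).lt_or_eq with h6 | h6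
        · exact Or.inl h6
        · refine Or.inr ⟨h6, ?_⟩
          apply List.Shortlex.of_lex (by simp)
          exact List.Lex.rel h1
      exact pre_asymm h (pre_of_pre_of_suffix hmx h5 h3 (by simp))
    · exact Or.inr (Or.inr ⟨c, x, z, h1, h4, h3⟩)

end PreFacts

end Orders

end Pool.MTree
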