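import Pool.Agent.Work.MTree.Build

/-!
The order type of the homogeneous chain, and the main theorem.
-/

set_option autoImplicit false

universe u

open Cardinal Set Filter

namespace Pool.MTree

section OrderType

variable {κ : Cardinal.{u}} {K : Type u} [LinearOrder K] [WellFoundedLT K]
  {T : Type u} [PartialOrder T] {k : ℕ}

/-- The leaves below an index. -/
def Leaf (τ0 : K) (a : List (K ×ₗ K)) : Type u :=
  {b : List (K ×ₗ K) // Val τ0 b ∧ IsMin (ex τ0 b) ∧ a <:+ b}

/-- The order on the leaves induced by the nodes. -/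
def leafRel (t : List (K ×ₗ K) → T) (τ0 : K) (a : List (K ×ₗ K)) :
    Leaf τ0 a → Leaf τ0 a → Prop := fun x y => t x.1 < t y.1

theorem leafRel_wo (hT : WellFounded (fun a b : T => a < b)) {t : List (K ×ₗ K) → T} {τ0 : K}
    (ht : ∀ a b, Val τ0 a → Val τ0 b → Bef a b → t a < t b) (a : List (K ×ₗ K)) :
    IsWellOrder (Leaf τ0 a) (leafRel t τ0 a) where
  wf := InvImage.wf (fun x : Leaf τ0 a => t x.1) hT
  trichotomous x y h1 h2 := by
    by_contra h3
    have h4 : x.1 ≠ y.1 := fun h => h3 (Subtype.ext h)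
    rcases bef_total h4 with h5 | h5
    · exact h1 (ht _ _ x.2.1 y.2.1 h5)
    · exact h2 (ht _ _ y.2.1 x.2.1 h5)

theorem opow_le_type (hT : WellFounded (fun a b : T => a < b)) {t : List (K ×ₗ K) → T} {τ0 : K}
    (ht : ∀ a b, Val τ0 a → Val τ0 b → Bef a b → t a < t b)
    (hK : Ordinal.type (fun a b : K => a < b) = κ.ord) (hκ : κ.ord ≠ 0) :
    ∀ (τ' : K) (a : List (K ×ₗ K)), Val τ0 a → ex τ0 a = τ' →
      κ.ord ^ (Ordinal.typein (fun a b : K => a < b) τ') ≤
        @Ordinal.type _ (leafRel t τ0 a) (leafRel_wo hT ht a) := by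
  intro τ'
  induction τ' using (wellFounded_lt (α := K)).induction with
  | _ τ' ih =>
    intro a ha hex
    have hwo := leafRel_wo hT ht a
    -- the successor bounds
    have hsucc : ∀ τ'' < τ', κ.ord ^ (Ordinal.typein (fun a b : K => a < b) τ'') * κ.ord ≤
        Ordinal.type (leafRel t τ0 a) := by
      intro τ'' hlt
      have hval : ∀ ξ : K, Val τ0 (toLex (ξ, τ'') :: a) := by
        intro ξ
        refine ⟨ha, ?_⟩
        rw [hex]
        exact hlt
      obtain ⟨β, s, hs, hβ⟩ : ∃ (β : Type u) (s : β → β → Prop) (hs : IsWellOrder β s),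
          Ordinal.type s = κ.ord ^ (Ordinal.typein (fun a b : K => a < b) τ'') :=
        ⟨_, _, inferInstance, Ordinal.type_toType _⟩
      have hemb : ∀ ξ : K, Nonempty (s ↪r (leafRel t τ0 (toLex (ξ, τ'') :: a))) := by
        intro ξ
        have hwo' := leafRel_wo hT ht (toLex (ξ, τ'') :: a)
        have h1 := ih τ'' hlt (toLex (ξ, τ'') :: a) (hval ξ) rfl
        rw [← hβ] at h1
        exact Ordinal.type_le_iff'.1 h1
      obtain ⟨g⟩ : Nonempty (∀ ξ : K, s ↪r (leafRel t τ0 (toLex (ξ, τ'') :: a))) :=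
        ⟨fun ξ => (hemb ξ).some⟩
      rw [← hβ, ← hK, ← Ordinal.type_prod_lex]
      let G : K × β → Leaf τ0 a := fun z => ⟨(g z.1 z.2).1, (g z.1 z.2).2.1, (g z.1 z.2).2.2.1,
          (List.suffix_cons _ _).trans (g z.1 z.2).2.2.2⟩
      refine (RelEmbedding.ofMonotone (s := leafRel t τ0 a) G ?_).ordinal_type_le
      rintro ⟨ξ, z⟩ ⟨ξ', z'⟩ hzz
      rw [Prod.lex_def] at hzz
      rcases hzz with h1 | ⟨h1, h2⟩
      · simp only at h1
        apply ht _ _ (g ξ z).2.1 (g ξ' z').2.1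
        refine Or.inr ⟨a, toLex (ξ, τ''), toLex (ξ', τ''), ?_, (g ξ z).2.2.2, (g ξ' z').2.2.2⟩
        exact Prod.Lex.lt_iff.2 (Or.inl h1)
      · simp only at h1 h2
        subst h1
        exact (g ξ).map_rel_iff.2 h2
    rcases Ordinal.zero_or_succ_or_isSuccLimit (Ordinal.typein (fun a b : K => a < b) τ')
      with h0 | ⟨o, ho⟩ | hlim
    · rw [h0, Ordinal.opow_zero, Order.one_le_iff_ne_zero]
      rw [Ne, Ordinal.type_eq_zero_iff_isEmpty, not_isEmpty_iff]
      refine ⟨⟨a, ha, ?_, List.suffix_rfl⟩⟩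
      rw [hex]
      intro x hx
      by_contra hcon
      have h1 : Ordinal.typein (fun a b : K => a < b) x <
          Ordinal.typein (fun a b : K => a < b) τ' :=
        (Ordinal.typein_lt_typein _).2 (not_le.1 hcon)
      rw [h0] at h1
      exact absurd h1 (not_lt.2 zero_le)
    · have ho' : o < Ordinal.typein (fun a b : K => a < b) τ' := by
        rw [← ho]; exact Order.lt_succ o
      obtain ⟨τ'', hτ''⟩ := Ordinal.typein_surj (fun a b : K => a < b)
        (ho'.trans (Ordinal.typein_lt_type _ _))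
      have hlt : τ'' < τ' := by
        rw [← hτ'', Ordinal.typein_lt_typein] at ho'
        exact ho'
      rw [← ho, Ordinal.opow_succ, ← hτ'']
      exact hsucc τ'' hlt
    · rw [Ordinal.opow_le_of_isSuccLimit hκ hlim]
      intro o ho'
      obtain ⟨τ'', hτ''⟩ := Ordinal.typein_surj (fun a b : K => a < b)
        (ho'.trans (Ordinal.typein_lt_type _ _))
      have hlt : τ'' < τ' := by
        rw [← hτ'', Ordinal.typein_lt_typein] at ho'
        exact ho'
      rw [← hτ'']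
      refine le_trans ?_ (hsucc τ'' hlt)
      exact Ordinal.le_mul_left _ (pos_iff_ne_zero.2 hκ)

end OrderType

section Main

variable {κ : Cardinal.{u}} {K : Type u} [LinearOrder K] [WellFoundedLT K]
  {T : Type u} [PartialOrder T] {k : ℕ}

/-- The theorem for trees all of whose nodes have at most `κ` predecessors. -/
theorem main_small (h : MC κ K) (hK : Ordinal.type (fun a b : K => a < b) = κ.ord)
    (U : Ultrafilter K) [hUc : CardinalInterFilter (U : Filter K) κ] (hU : ∀ x, {x} ∉ U)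
    (hT : IsTree T) (hI : ∀ t : T, #(Iio t) ≤ κ) (hns : ¬ Spec K (univ : Set T))
    (c : T → T → Fin k) (α : Ordinal.{u}) (hα : α < κ.ord ^ κ.ord) :
    ∃ g : Iio α → T, StrictMono g ∧ ∃ i : Fin k, ∀ a b : Iio α, a < b → c (g a) (g b) = i := by
  classical
  have hκ0 : κ.ord ≠ 0 := by
    rw [Ne, ord_eq_zero]
    exact (aleph0_pos.trans h.unc).ne'
  have hlim : Order.IsSuccLimit κ.ord := isSuccLimit_ord h.inf
  obtain ⟨o, ho, hαo⟩ := (Ordinal.lt_opow_of_isSuccLimit hκ0 hlim).1 hα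
  obtain ⟨τ0, hτ0⟩ := Ordinal.typein_surj (fun a b : K => a < b) (by rw [hK]; exact ho)
  obtain ⟨ρ, hρ⟩ := shape k h (fun _ => τ0)
  have hΛ : #(Iio ρ) < κ := h.iio ρ
  obtain ⟨D, hD⟩ := exists_system (Λ := Iio ρ) h U hU hT hI inferInstance c
  obtain ⟨δ, hδ⟩ := exists_root h hT hI inferInstance hΛ hns hD
  let f : List (Iio ρ) → Fin k := vec c (D δ).V δ
  obtain ⟨i, p, B, Q, h1, h2, -⟩ := hρ (Iio ρ) univ univ f isLowerSet_univ
    (Rk_full ρ ρ le_rfl univ (fun x _ => mem_univ x))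
  have hN : NB c D f univ δ := ⟨fun σ _ => hδ σ, fun l _ => rfl⟩
  have h3 := typical hD f h1 isLowerSet_univ δ hN
  obtain ⟨η, hη⟩ := h3.2.1.exists
  obtain ⟨t, ht⟩ := exists_nodes h hΛ hD h2 (h1.props isLowerSet_univ).2.1 ⟨η, hη.1⟩
  have ht1 : ∀ a b, Val τ0 a → Val τ0 b → Bef a b → t a < t b :=
    fun a b ha hb hab => (ht a b ha hb hab).1
  have hwo := leafRel_wo hT.wf ht1 []
  have h4 := opow_le_type (κ := κ) hT.wf ht1 hK hκ0 τ0 [] trivial rfl
  rw [hτ0] at h4
  have h5 : α ≤ Ordinal.type (leafRel t τ0 []) := hαo.le.trans h4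
  rw [← Ordinal.type_toType α, Ordinal.type_le_iff'] at h5
  obtain ⟨e⟩ := h5
  refine ⟨fun x => t (e (Ordinal.ToType.mk x)).1, ?_, i, ?_⟩
  · intro x y hxy
    exact e.map_rel_iff.2 (Ordinal.ToType.mk.lt_iff_lt.2 hxy)
  · intro x y hxy
    have h6 : t (e (Ordinal.ToType.mk x)).1 < t (e (Ordinal.ToType.mk y)).1 :=
      e.map_rel_iff.2 (Ordinal.ToType.mk.lt_iff_lt.2 hxy)
    have hx := (e (Ordinal.ToType.mk x)).2
    have hy := (e (Ordinal.ToType.mk y)).2
    have hne : (e (Ordinal.ToType.mk x)).1 ≠ (e (Ordinal.ToType.mk y)).1 := by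
      intro h'
      rw [h'] at h6
      exact lt_irrefl _ h6
    rcases bef_total hne with h7 | h7
    · exact (ht _ _ hx.1 hy.1 h7).2 hx.2.1
    · exact absurd (ht1 _ _ hy.1 hx.1 h7) h6.asymm

end Main

end Pool.MTree
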