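import Pool.Agent.Work.MTree.System

/-!
Paths, typical nodes, ranks and homogeneous shapes.
-/

set_option autoImplicit false

universe u

open Cardinal Set Filter

namespace Pool.MTree

section Paths

variable {Λ : Type u} [LinearOrder Λ]

/-- `Path B p B'`: `p` is a decreasing list with entries in `B`, and `B'` is what is left of
`B` below the last entry of `p`. -/
inductive Path : Set Λ → List Λ → Set Λ → Prop
  | nil (B : Set Λ) : Path B [] B
  | cons {B B' : Set Λ} {σ : Λ} {p : List Λ} (hσ : σ ∈ B) (h : Path (Iio σ) p B') :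
      Path B (σ :: p) B'

theorem Path.props {B B' : Set Λ} {p : List Λ} (h : Path B p B') :
    IsLowerSet B → B' ⊆ B ∧ IsLowerSet B' ∧ ∀ x ∈ p, x ∈ B := by
  induction h with
  | nil B => exact fun hB => ⟨subset_rfl, hB, by simp⟩
  | @cons B B' σ p hσ _ ih =>
    intro hB
    obtain ⟨h1, h2, h3⟩ := ih (isLowerSet_Iio σ)
    have h4 : Iio σ ⊆ B := fun x hx => hB (le_of_lt hx) hσ
    refine ⟨h1.trans h4, h2, ?_⟩
    intro x hx
    rcases List.mem_cons.1 hx with rfl | hx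
    · exact hσ
    · exact h4 (h3 x hx)

end Paths

section Typical

variable {κ : Cardinal.{u}} {T : Type u} [PartialOrder T] {Λ : Type u} [LinearOrder Λ] {k : ℕ}

/-- `ζ` is good at all levels in `B` and its colour vector agrees with `f` on lists from `B`. -/
def NB (c : T → T → Fin k) (D : T → Dat T Λ) (f : List Λ → Fin k) (B : Set Λ) (ζ : T) : Prop :=
  (∀ σ ∈ B, (D ζ).G σ) ∧ ∀ l : List Λ, (∀ x ∈ l, x ∈ B) → vec c (D ζ).V ζ l = f l

theorem typical {c : T → T → Fin k} {D : T → Dat T Λ} (hD : IsSystem κ c D)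
    (f : List Λ → Fin k) {B B' : Set Λ} {p : List Λ} (hp : Path B p B') :
    IsLowerSet B → ∀ ζ : T, NB c D f B ζ →
      CardinalInterFilter ((D ζ).V p : Filter T) κ ∧
      (∀ᶠ η in ((D ζ).V p : Filter T), NB c D f B' η ∧ η ≤ ζ ∧ (p ≠ [] → η < ζ)) ∧
      (∀ q < ζ, ∀ᶠ η in ((D ζ).V p : Filter T), q < η ∧ obs c D q η = obs c D q ζ) ∧
      (∀ (l : List Λ) (Y : Set T), Y ∈ (D ζ).V (p ++ l) ↔
        ∀ᶠ η in ((D ζ).V p : Filter T), Y ∈ (D η).V l) := by
  induction hp with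
  | nil B =>
    intro hB ζ hζ
    rw [hD.nil ζ]
    refine ⟨⟨?_⟩, ?_, ?_, ?_⟩
    · intro S _ hS
      have h1 : ∀ s ∈ S, ζ ∈ s := fun s hs => hS s hs
      exact fun s hs => h1 s hs
    · show ζ ∈ {η | NB c D f B η ∧ η ≤ ζ ∧ (([] : List Λ) ≠ [] → η < ζ)}
      exact ⟨hζ, le_rfl, fun h => absurd rfl h⟩
    · intro q hq
      show ζ ∈ {η | q < η ∧ obs c D q η = obs c D q ζ}
      exact ⟨hq, rfl⟩
    · intro l Y
      exact Iff.rfl
  | @cons B B' σ p hσ _ ih =>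
    intro hB ζ hζ
    have hG : (D ζ).G σ := hζ.1 σ hσ
    have hlow := isLowerSet_Iio σ
    have hsub : Iio σ ⊆ B := fun x hx => hB (le_of_lt hx) hσ
    have htyp : ∀ᶠ η in ((D ζ).W σ : Filter T), η < ζ ∧ NB c D f (Iio σ) η := by
      filter_upwards [hD.typ ζ σ hG] with η hη
      refine ⟨hη.1, hη.2.1, fun l hl => ?_⟩
      rw [hη.2.2 l hl]
      exact hζ.2 l (fun x hx => hsub (hl x hx))
    have hmem : ∀ Y : Set T, Y ∈ (D ζ).V (σ :: p) ↔
        ∀ᶠ η in ((D ζ).W σ : Filter T), Y ∈ (D η).V p := fun Y => hD.cons ζ σ hG p Y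
    have hcomp := hD.comp ζ σ hG
    refine ⟨⟨?_⟩, ?_, ?_, ?_⟩
    · intro S hS hmS
      have h1 : ∀ᶠ η in ((D ζ).W σ : Filter T), ∀ s : S, s.1 ∈ (D η).V p :=
        (eventually_cardinal_forall hS).2 (fun s => (hmem s.1).1 (hmS s.1 s.2))
      refine (hmem _).2 ?_
      filter_upwards [h1, htyp] with η h2 h3
      have h4 := (ih hlow η h3.2).1
      exact CardinalInterFilter.cardinal_sInter_mem S hS (fun s hs => h2 ⟨s, hs⟩)
    · refine (hmem _).2 ?_
      filter_upwards [htyp] with η h3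
      filter_upwards [(ih hlow η h3.2).2.1] with ξ hξ
      exact ⟨hξ.1, hξ.2.1.trans h3.1.le, fun _ => lt_of_le_of_lt hξ.2.1 h3.1⟩
    · intro q hq
      refine (hmem _).2 ?_
      filter_upwards [htyp, hD.refl ζ σ hG q hq] with η h3 h4
      filter_upwards [(ih hlow η h3.2).2.2.1 q h4.1] with ξ hξ
      exact ⟨hξ.1, hξ.2.trans h4.2⟩
    · intro l Y
      have h5 : Y ∈ (D ζ).V (σ :: p ++ l) ↔
          ∀ᶠ η in ((D ζ).W σ : Filter T), Y ∈ (D η).V (p ++ l) :=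
        hD.cons ζ σ hG (p ++ l) Y
      rw [h5]
      have h6 : (∀ᶠ η in ((D ζ).V (σ :: p) : Filter T), Y ∈ (D η).V l) ↔
          ∀ᶠ η in ((D ζ).W σ : Filter T), {ξ | Y ∈ (D ξ).V l} ∈ (D η).V p := hmem _
      rw [h6]
      apply eventually_congr
      filter_upwards [htyp] with η h3
      exact (ih hlow η h3.2).2.2.2 l Y

end Typical

section Rank

variable {κ : Cardinal.{u}} {K : Type u} [LinearOrder K] [WellFoundedLT K]
  {Λ : Type u} [LinearOrder Λ] {k : ℕ}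

/-- `Rk ρ B Q`: the set `Q` of lists has rank at least `ρ` as a tree of decreasing lists
with entries in `B`. -/
def Rk (ρ : K) : Set Λ → Set (List Λ) → Prop :=
  (wellFounded_lt : WellFounded (fun a b : K => a < b)).fix
    (C := fun _ => Set Λ → Set (List Λ) → Prop)
    (fun ρ R B Q => (∃ q ∈ Q, ∃ B', Path B q B') ∧
      ∀ ρ', ∀ h : ρ' < ρ, ∃ σ ∈ B, R ρ' h (Iio σ) {q | σ :: q ∈ Q}) ρ

theorem Rk_iff {ρ : K} {B : Set Λ} {Q : Set (List Λ)} : Rk ρ B Q ↔
    (∃ q ∈ Q, ∃ B', Path B q B') ∧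
      ∀ ρ' < ρ, ∃ σ ∈ B, Rk ρ' (Iio σ) {q | σ :: q ∈ Q} := by
  unfold Rk
  rw [WellFounded.fix_eq]

theorem Rk.anti {ρ ρ' : K} {B : Set Λ} {Q : Set (List Λ)} (h : Rk ρ B Q) (hρ : ρ' ≤ ρ) :
    Rk ρ' B Q := by
  rw [Rk_iff] at h ⊢
  exact ⟨h.1, fun ρ'' h'' => h.2 ρ'' (lt_of_lt_of_le h'' hρ)⟩

variable {f : List Λ → Fin k} {i : Fin k}

/-- Homogeneous shapes. -/
def Valid (f : List Λ → Fin k) (i : Fin k) (τ : K) : Set Λ → Set (List Λ) → Prop :=
  (wellFounded_lt : WellFounded (fun a b : K => a < b)).fix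
    (C := fun _ => Set Λ → Set (List Λ) → Prop)
    (fun τ R B Q => (IsMin τ ∧ Q = {[]}) ∨
      (¬ IsMin τ ∧ (∀ q ∈ Q, f q = i ∧ ∀ x ∈ q, x ∈ B) ∧
        ∀ τ', ∀ h : τ' < τ, ∃ (p : List Λ) (B' : Set Λ) (Q' : Set (List Λ)),
          p ≠ [] ∧ Path B p B' ∧ R τ' h B' Q' ∧ ∀ q ∈ Q', p ++ q ∈ Q)) τ

theorem Valid_iff {τ : K} {B : Set Λ} {Q : Set (List Λ)} : Valid f i τ B Q ↔
    (IsMin τ ∧ Q = {[]}) ∨
      (¬ IsMin τ ∧ (∀ q ∈ Q, f q = i ∧ ∀ x ∈ q, x ∈ B) ∧
        ∀ τ' < τ, ∃ (p : List Λ) (B' : Set Λ) (Q' : Set (List Λ)),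
          p ≠ [] ∧ Path B p B' ∧ Valid f i τ' B' Q' ∧ ∀ q ∈ Q', p ++ q ∈ Q) := by
  unfold Valid
  rw [WellFounded.fix_eq]

theorem Valid.entries {τ : K} {B : Set Λ} {Q : Set (List Λ)} (h : Valid f i τ B Q) :
    ∀ q ∈ Q, ∀ x ∈ q, x ∈ B := by
  rw [Valid_iff] at h
  rcases h with ⟨-, rfl⟩ | ⟨-, h, -⟩
  · intro q hq x hx
    rw [mem_singleton_iff] at hq
    rw [hq] at hx
    simp at hx
  · exact fun q hq => (h q hq).2

/-- A shape can be reached from `(B, Q)`. -/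
def Reach (f : List Λ → Fin k) (i : Fin k) (τ : K) (B : Set Λ) (Q : Set (List Λ)) : Prop :=
  ∃ (p : List Λ) (B' : Set Λ) (Q' : Set (List Λ)),
    Path B p B' ∧ Valid f i τ B' Q' ∧ ∀ q ∈ Q', p ++ q ∈ Q

theorem Reach.mono {τ : K} {B : Set Λ} {Q Q' : Set (List Λ)} (h : Reach f i τ B Q)
    (hQ : Q ⊆ Q') : Reach f i τ B Q' := by
  obtain ⟨p, B1, Q1, h1, h2, h3⟩ := h
  exact ⟨p, B1, Q1, h1, h2, fun q hq => hQ (h3 q hq)⟩

theorem Reach.cons {τ : K} {B : Set Λ} {Q : Set (List Λ)} {σ : Λ} (hσ : σ ∈ B)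
    (h : Reach f i τ (Iio σ) {q | σ :: q ∈ Q}) : Reach f i τ B Q := by
  obtain ⟨p, B1, Q1, h1, h2, h3⟩ := h
  exact ⟨σ :: p, B1, Q1, Path.cons hσ h1, h2, fun q hq => h3 q hq⟩

theorem mk_lt_fun (h : MC κ K) (r : Fin k → K) : #{r' : Fin k → K // r' < r} < κ := by
  obtain ⟨b, hb⟩ := h.bdd_family (ι := ULift.{u} (Fin k))
    ((lt_aleph0_of_finite _).trans h.unc) (fun j => r j.down)
  have h1 : #(ULift.{u} (Fin k) → Iio b) < κ :=
    h.fun_lt ((lt_aleph0_of_finite _).trans h.unc) (h.iio b)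
  refine lt_of_le_of_lt ?_ h1
  refine mk_le_of_injective (f := fun r' : {r' : Fin k → K // r' < r} => fun j =>
    (⟨r'.1 j.down, lt_of_le_of_lt (r'.2.le j.down) (hb j)⟩ : Iio b)) ?_
  intro r1 r2 h12
  apply Subtype.ext
  funext j
  exact congrArg Subtype.val (congrFun h12 (ULift.up j))

variable (k) in
theorem partition (h : MC κ K) (r : Fin k → K) : ∃ ρ : K,
    ∀ (Λ : Type u) [LinearOrder Λ] (B : Set Λ) (Q : Set (List Λ)) (g : List Λ → Fin k),
      Rk ρ B Q → ∃ i, Rk (r i) B {q | q ∈ Q ∧ g q = i} := by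
  classical
  have wf : WellFounded (fun a b : Fin k → K => a < b) := (inferInstance : WellFoundedLT _).wf
  induction r using wf.induction with
  | _ r ih =>
    choose R hR using ih
    obtain ⟨ρ, hρ⟩ := h.bdd_family (mk_lt_fun h r) (fun r' => R r'.1 r'.2)
    refine ⟨ρ, fun Λ _ B Q g hQ => ?_⟩
    by_contra hcon
    push Not at hcon
    rw [Rk_iff] at hQ
    obtain ⟨⟨q0, hq0, B0, hB0⟩, hQ2⟩ := hQ
    -- the colours for which the rank condition fails at a smaller rank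
    let Fail : Fin k → K → Prop := fun i ρ' => ρ' < r i ∧
      ∀ σ ∈ B, ¬ Rk ρ' (Iio σ) {q | σ :: q ∈ {q | q ∈ Q ∧ g q = i}}
    have hfail : ∀ i, (∃ q ∈ {q | q ∈ Q ∧ g q = i}, ∃ B', Path B q B') →
        ∃ ρ', Fail i ρ' := by
      intro i hi
      have h1 := hcon i
      rw [Rk_iff] at h1
      push Not at h1
      obtain ⟨ρ', h2, h3⟩ := h1 hi
      exact ⟨ρ', h2, h3⟩
    let r' : Fin k → K := fun i => if hi : ∃ ρ', Fail i ρ' then hi.choose else r i
    have hr'1 : ∀ i, r' i ≤ r i := by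
      intro i
      simp only [r']
      split_ifs with hi
      · exact hi.choose_spec.1.le
      · exact le_rfl
    have hi0 : ∃ ρ', Fail (g q0) ρ' := hfail (g q0) ⟨q0, ⟨hq0, rfl⟩, B0, hB0⟩
    have hr'2 : r' < r := by
      refine lt_of_le_of_ne hr'1 ?_
      intro heq
      have h1 := congrFun heq (g q0)
      simp only [r', dif_pos hi0] at h1
      exact absurd h1 hi0.choose_spec.1.ne
    obtain ⟨σ, hσ, h1⟩ := hQ2 (R r' hr'2) (hρ ⟨r', hr'2⟩)
    obtain ⟨i, h2⟩ := hR r' hr'2 Λ (Iio σ) _ (fun q => g (σ :: q)) h1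
    by_cases hi : ∃ ρ', Fail i ρ'
    · have h3 : r' i = hi.choose := by simp only [r', dif_pos hi]
      rw [h3] at h2
      exact hi.choose_spec.2 σ hσ h2
    · rw [Rk_iff] at h2
      obtain ⟨⟨q, hq, B', hB'⟩, -⟩ := h2
      exact hi (hfail i ⟨σ :: q, hq, B', Path.cons hσ hB'⟩)

variable (k) in
theorem shape (h : MC κ K) (r : Fin k → K) : ∃ ρ : K,
    ∀ (Λ : Type u) [LinearOrder Λ] (B : Set Λ) (Q : Set (List Λ)) (f : List Λ → Fin k),
      IsLowerSet B → Rk ρ B Q → ∃ i, Reach f i (r i) B Q := by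
  classical
  have wf : WellFounded (fun a b : Fin k → K => a < b) := (inferInstance : WellFoundedLT _).wf
  induction r using wf.induction with
  | _ r ih =>
    choose R hR using ih
    obtain ⟨ρ2, hρ2⟩ := h.bdd_family (mk_lt_fun h r) (fun r' => R r'.1 r'.2)
    obtain ⟨ρ1, hρ1⟩ := partition k h (fun _ => ρ2)
    obtain ⟨ρ, hρ⟩ := h.bdd_family (ι := PUnit.{u+1}) (by
      rw [mk_punit]; exact one_lt_aleph0.trans h.unc) (fun _ => ρ1)
    refine ⟨ρ, fun Λ _ B Q f hB hQ => ?_⟩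
    rw [Rk_iff] at hQ
    obtain ⟨σ, hσ, h1⟩ := hQ.2 ρ1 (hρ PUnit.unit)
    obtain ⟨i, h2⟩ := hρ1 Λ (Iio σ) _ (fun q => f (σ :: q)) h1
    by_cases hmin : IsMin (r i)
    · refine ⟨i, ?_⟩
      rw [Rk_iff] at h2
      obtain ⟨⟨q, hq, B', hB'⟩, -⟩ := h2
      refine ⟨σ :: q, B', {[]}, Path.cons hσ hB', ?_, ?_⟩
      · rw [Valid_iff]
        exact Or.inl ⟨hmin, rfl⟩
      · intro q' hq'
        rw [mem_singleton_iff] at hq'
        rw [hq', List.append_nil]
        exact hq.1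
    · by_cases hex : ∃ τ' < r i, ∃ j, j ≠ i ∧
          Reach f j (r j) (Iio σ) {q | q ∈ {q | σ :: q ∈ Q} ∧ f (σ :: q) = i}
      · obtain ⟨τ', -, j, -, hj⟩ := hex
        exact ⟨j, Reach.cons hσ (hj.mono (fun q hq => hq.1))⟩
      · refine ⟨i, ?_⟩
        have hall : ∀ τ' < r i,
            Reach f i τ' (Iio σ) {q | q ∈ {q | σ :: q ∈ Q} ∧ f (σ :: q) = i} := by
          intro τ' hτ'
          have hlt : Function.update r i τ' < r := by
            exact update_lt_self_iff.2 hτ'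
          obtain ⟨j, hj⟩ := hR _ hlt Λ (Iio σ) _ f (isLowerSet_Iio σ)
            (h2.anti (hρ2 ⟨_, hlt⟩).le)
          by_cases hji : j = i
          · subst hji
            rw [Function.update_self] at hj
            exact hj
          · rw [Function.update_of_ne hji] at hj
            exact absurd ⟨τ', hτ', j, hji, hj⟩ hex
        refine ⟨[], B, {q | ∃ q', q = σ :: q' ∧ σ :: q' ∈ Q ∧ f (σ :: q') = i ∧
          ∀ x ∈ q', x < σ}, Path.nil B, ?_, ?_⟩
        · rw [Valid_iff]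
          refine Or.inr ⟨hmin, ?_, ?_⟩
          · rintro q ⟨q', rfl, h3, h4, h5⟩
            refine ⟨h4, ?_⟩
            intro x hx
            rcases List.mem_cons.1 hx with rfl | hx
            · exact hσ
            · exact hB (h5 x hx).le hσ
          · intro τ' hτ'
            obtain ⟨p, B', Q', h3, h4, h5⟩ := hall τ' hτ'
            refine ⟨σ :: p, B', Q', by simp, Path.cons hσ h3, h4, ?_⟩
            intro q hq
            obtain ⟨h6, h7⟩ := h5 q hq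
            refine ⟨p ++ q, rfl, h6, h7, ?_⟩
            intro x hx
            rcases List.mem_append.1 hx with hx | hx
            · exact (h3.props (isLowerSet_Iio σ)).2.2 x hx
            · exact (h3.props (isLowerSet_Iio σ)).1 (h4.entries q hq x hx)
        · rintro q ⟨q', rfl, h3, -⟩
          exact h3

/-- The full tree has full rank. -/
theorem Rk_full (b : K) : ∀ ρ' : K, ρ' ≤ b → ∀ B : Set (Iio b), (∀ x : Iio b, x.1 < ρ' → x ∈ B) →
    Rk ρ' B (univ : Set (List (Iio b))) := by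
  intro ρ'
  induction ρ' using (wellFounded_lt : WellFounded (fun a b : K => a < b)).induction with
  | _ ρ' ih =>
    intro hρ' B hB
    rw [Rk_iff]
    refine ⟨⟨[], mem_univ _, B, Path.nil B⟩, fun ρ'' h'' => ?_⟩
    refine ⟨⟨ρ'', lt_of_lt_of_le h'' hρ'⟩, hB _ h'', ?_⟩
    exact ih ρ'' h'' (h''.le.trans hρ') _ (fun x hx => hx)

end Rank

end Pool.MTree
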