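import Pool.Agent.Work.MTree.Base

/-!
The system of ultrafilters attached to the nodes of a tree.
-/

set_option autoImplicit false

universe u

open Cardinal Set Filter

namespace Pool.MTree

section Ulim

variable {T : Type u} {k : ℕ}

theorem ulim_exists (V : Ultrafilter T) (f : T → Fin k) :
    ∃ b, ∀ᶠ x in (V : Filter T), f x = b := by
  obtain ⟨b, hb⟩ := (V.map f).eq_pure_of_finite
  refine ⟨b, ?_⟩
  have h1 : ({b} : Set (Fin k)) ∈ V.map f := by
    rw [hb]; exact mem_singleton b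
  exact h1

/-- The limit of a finite colouring along an ultrafilter. -/
noncomputable def ulim (V : Ultrafilter T) (f : T → Fin k) : Fin k := (ulim_exists V f).choose

theorem ulim_spec (V : Ultrafilter T) (f : T → Fin k) :
    ∀ᶠ x in (V : Filter T), f x = ulim V f := (ulim_exists V f).choose_spec

theorem ulim_eq_iff {V : Ultrafilter T} {f : T → Fin k} {b : Fin k} :
    ulim V f = b ↔ ∀ᶠ x in (V : Filter T), f x = b := by
  constructor
  · intro h
    rw [← h]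
    exact ulim_spec V f
  · intro h
    obtain ⟨x, hx1, hx2⟩ := (h.and (ulim_spec V f)).exists
    rw [← hx1, ← hx2]

end Ulim

/-- The data attached to a node. -/
structure Dat (T Λ : Type u) where
  V : List Λ → Ultrafilter T
  W : Λ → Ultrafilter T
  G : Λ → Prop

section System

variable {κ : Cardinal.{u}} {K : Type u} [LinearOrder K] {T : Type u} [PartialOrder T]
  {Λ : Type u} [LinearOrder Λ] {k : ℕ}

/-- The colours of the typical leaves below `q` with the node `y`. -/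
noncomputable def obs (c : T → T → Fin k) (D : T → Dat T Λ) (q y : T) : List Λ → Fin k :=
  fun l => ulim ((D q).V l) (fun x => c x y)

/-- The colour vector of a node. -/
noncomputable def vec (c : T → T → Fin k) (V : List Λ → Ultrafilter T) (ζ : T) : List Λ → Fin k :=
  fun l => ulim (V l) (fun x => c x ζ)

/-- The nodes `η` which are as good as `ζ` below level `σ`. -/
def ASet (c : T → T → Fin k) (D : T → Dat T Λ) (ζ : T) (V : List Λ → Ultrafilter T) (σ : Λ) :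
    Set T :=
  {η | (∀ σ' < σ, (D η).G σ') ∧
    ∀ l : List Λ, (∀ x ∈ l, x < σ) → vec c (D η).V η l = vec c V ζ l}

/-- Positivity of a set with respect to the filter of a node. -/
def PosC (κ : Cardinal.{u}) (c : T → T → Fin k) (D : T → Dat T Λ) (ζ : T) (A : Set T) : Prop :=
  ∀ Q : Set T, Q ⊆ Iio ζ → #Q < κ →
    ∃ η ∈ A, η < ζ ∧ ∀ q ∈ Q, q < η ∧ obs c D q η = obs c D q ζ

/-- The requirement on the data of `ζ`, given the data `D` below `ζ`. -/
structure SpecD (κ : Cardinal.{u}) (c : T → T → Fin k) (ζ : T) (D : T → Dat T Λ)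
    (d : Dat T Λ) : Prop where
  nil : d.V [] = pure ζ
  cons : ∀ σ l, d.V (σ :: l) = (d.W σ).bind (fun η => (D η).V l)
  good : ∀ σ, d.G σ ↔ PosC κ c D ζ (ASet c D ζ d.V σ)
  wcomp : ∀ σ, d.G σ → CardinalInterFilter (d.W σ : Filter T) κ
  wA : ∀ σ, d.G σ → ASet c D ζ d.V σ ∈ d.W σ
  wlt : ∀ σ, d.G σ → Iio ζ ∈ d.W σ
  wobs : ∀ σ, d.G σ → ∀ q < ζ, {η | q < η ∧ obs c D q η = obs c D q ζ} ∈ d.W σ

theorem exists_specD (h : MC κ K) (U : Ultrafilter K)
    [hUc : CardinalInterFilter (U : Filter K) κ] (hU : ∀ x, {x} ∉ U)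
    (hI : ∀ t : T, #(Iio t) ≤ κ) (wfΛ : WellFoundedLT Λ)
    (c : T → T → Fin k) (ζ : T) (D : T → Dat T Λ) : ∃ d, SpecD κ c ζ D d := by
  classical
  let VW : (Λ → Ultrafilter T) → List Λ → Ultrafilter T := fun W l =>
    match l with
    | [] => pure ζ
    | σ :: l => (W σ).bind (fun η => (D η).V l)
  obtain ⟨W, hW⟩ := rec_exists wfΛ.wf (pure ζ : Ultrafilter T)
    (fun σ W w => PosC κ c D ζ (ASet c D ζ (VW W) σ) →
      (CardinalInterFilter (w : Filter T) κ ∧ ASet c D ζ (VW W) σ ∈ w ∧ Iio ζ ∈ w ∧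
        ∀ q < ζ, {η | q < η ∧ obs c D q η = obs c D q ζ} ∈ w))
    (by
      intro σ W _
      by_cases hp : PosC κ c D ζ
          (ASet c D ζ (VW (restr (fun a b => a < b) (pure ζ) σ W)) σ)
      · obtain ⟨w, hw⟩ := exists_ultrafilter h U hU (obs c D) ζ (hI ζ) _ hp
        exact ⟨w, fun _ => hw⟩
      · exact ⟨pure ζ, fun h' => absurd h' hp⟩)
  have hA : ∀ σ, ASet c D ζ (VW (restr (fun a b => a < b) (pure ζ) σ W)) σ =
      ASet c D ζ (VW W) σ := by
    intro σ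
    have h1 : ∀ l : List Λ, (∀ x ∈ l, x < σ) →
        VW (restr (fun a b => a < b) (pure ζ) σ W) l = VW W l := by
      intro l hl
      cases l with
      | nil => rfl
      | cons σ' l' =>
        have h2 : σ' < σ := hl σ' (by simp)
        have h3 : restr (fun a b => a < b) (pure ζ) σ W σ' = W σ' :=
          restr_of (r := fun a b => a < b) h2
        show (restr (fun a b => a < b) (pure ζ) σ W σ').bind (fun η => (D η).V l') =
          (W σ').bind (fun η => (D η).V l')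
        rw [h3]
    ext η
    constructor
    · rintro ⟨h2, h3⟩
      refine ⟨h2, fun l hl => ?_⟩
      rw [h3 l hl]
      unfold vec
      rw [h1 l hl]
    · rintro ⟨h2, h3⟩
      refine ⟨h2, fun l hl => ?_⟩
      rw [h3 l hl]
      unfold vec
      rw [h1 l hl]
  refine ⟨⟨VW W, W, fun σ => PosC κ c D ζ (ASet c D ζ (VW W) σ)⟩, rfl, fun σ l => rfl,
    fun σ => Iff.rfl, ?_, ?_, ?_, ?_⟩
  · intro σ hσ
    have := hW σ
    rw [hA σ] at this
    exact (this hσ).1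
  · intro σ hσ
    have := hW σ
    rw [hA σ] at this
    exact (this hσ).2.1
  · intro σ hσ
    have := hW σ
    rw [hA σ] at this
    exact (this hσ).2.2.1
  · intro σ hσ
    have := hW σ
    rw [hA σ] at this
    exact (this hσ).2.2.2

/-- The properties of the system of ultrafilters. -/
structure IsSystem (κ : Cardinal.{u}) (c : T → T → Fin k) (D : T → Dat T Λ) : Prop where
  nil : ∀ ζ, (D ζ).V [] = pure ζ
  cons : ∀ ζ σ, (D ζ).G σ → ∀ l (Y : Set T),
    Y ∈ (D ζ).V (σ :: l) ↔ ∀ᶠ η in ((D ζ).W σ : Filter T), Y ∈ (D η).V l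
  comp : ∀ ζ σ, (D ζ).G σ → CardinalInterFilter ((D ζ).W σ : Filter T) κ
  typ : ∀ ζ σ, (D ζ).G σ → ∀ᶠ η in ((D ζ).W σ : Filter T), η < ζ ∧ (∀ σ' < σ, (D η).G σ') ∧
    ∀ l : List Λ, (∀ x ∈ l, x < σ) → vec c (D η).V η l = vec c (D ζ).V ζ l
  refl : ∀ ζ σ, (D ζ).G σ → ∀ q < ζ, ∀ᶠ η in ((D ζ).W σ : Filter T),
    q < η ∧ obs c D q η = obs c D q ζ
  bad : ∀ ζ σ, ¬ (D ζ).G σ → ∃ Q : Set T, Q ⊆ Iio ζ ∧ #Q < κ ∧ ∀ η < ζ,
    (∀ σ' < σ, (D η).G σ') →
    (∀ l : List Λ, (∀ x ∈ l, x < σ) → vec c (D η).V η l = vec c (D ζ).V ζ l) →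
    ¬ ∀ q ∈ Q, q < η ∧ obs c D q η = obs c D q ζ

theorem exists_system (h : MC κ K) (U : Ultrafilter K)
    [hUc : CardinalInterFilter (U : Filter K) κ] (hU : ∀ x, {x} ∉ U)
    (hT : IsTree T) (hI : ∀ t : T, #(Iio t) ≤ κ) (wfΛ : WellFoundedLT Λ)
    (c : T → T → Fin k) : ∃ D : T → Dat T Λ, IsSystem κ c D := by
  classical
  rcases isEmpty_or_nonempty T with hempty | ⟨⟨t0⟩⟩
  · exact ⟨fun t => (hempty.false t).elim, ⟨fun t => (hempty.false t).elim,
      fun t => (hempty.false t).elim, fun t => (hempty.false t).elim,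
      fun t => (hempty.false t).elim, fun t => (hempty.false t).elim,
      fun t => (hempty.false t).elim⟩⟩
  let d0 : Dat T Λ := ⟨fun _ => pure t0, fun _ => pure t0, fun _ => False⟩
  obtain ⟨D, hD⟩ := rec_exists hT.wf d0 (fun ζ D d => SpecD κ c ζ D d)
    (fun ζ D _ => exists_specD h U hU hI wfΛ c ζ _)
  have hr : ∀ ζ η : T, η < ζ → restr (fun a b => a < b) d0 ζ D η = D η :=
    fun ζ η hη => restr_of (r := fun a b => a < b) hη
  have hobs : ∀ ζ q : T, q < ζ → ∀ y, obs c (restr (fun a b => a < b) d0 ζ D) q y =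
      obs c D q y := by
    intro ζ q hq y
    unfold obs
    rw [hr ζ q hq]
  refine ⟨D, ⟨fun ζ => (hD ζ).nil, ?_, fun ζ σ hσ => (hD ζ).wcomp σ hσ, ?_, ?_, ?_⟩⟩
  · intro ζ σ hσ l Y
    rw [(hD ζ).cons σ l]
    have h1 : Y ∈ ((D ζ).W σ).bind (fun η => (restr (fun a b => a < b) d0 ζ D η).V l) ↔
        ∀ᶠ η in ((D ζ).W σ : Filter T), Y ∈ (restr (fun a b => a < b) d0 ζ D η).V l := by
      exact Filter.mem_bind'
    rw [h1]
    apply eventually_congr
    filter_upwards [(hD ζ).wlt σ hσ] with η hη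
    rw [hr ζ η hη]
  · intro ζ σ hσ
    filter_upwards [(hD ζ).wlt σ hσ, (hD ζ).wA σ hσ] with η hη hA
    obtain ⟨h1, h2⟩ := hA
    rw [hr ζ η hη] at h1 h2
    exact ⟨hη, h1, h2⟩
  · intro ζ σ hσ q hq
    filter_upwards [(hD ζ).wobs σ hσ q hq] with η hη
    obtain ⟨h1, h2⟩ := hη
    rw [hobs ζ q hq, hobs ζ q hq] at h2
    exact ⟨h1, h2⟩
  · intro ζ σ hσ
    rw [(hD ζ).good σ] at hσ
    unfold PosC at hσ
    push Not at hσ
    obtain ⟨Q, hQ1, hQ2, hQ3⟩ := hσ
    refine ⟨Q, hQ1, hQ2, fun η hη h1 h2 h3 => ?_⟩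
    obtain ⟨q, hq, h4⟩ := hQ3 η ⟨by rw [hr ζ η hη]; exact h1, by rw [hr ζ η hη]; exact h2⟩ hη
    have h5 := h4 (h3 q hq).1
    rw [hobs ζ q (hQ1 hq), hobs ζ q (hQ1 hq)] at h5
    exact h5 (h3 q hq).2

theorem mk_vec_lt (h : MC κ K) (hΛ : #Λ < κ) : #(List Λ → Fin k) < κ := by
  have h1 : #(List Λ → ULift.{u} (Fin k)) < κ := by
    apply h.fun_lt (h.list_lt hΛ)
    exact (lt_aleph0_of_finite _).trans h.unc
  refine lt_of_le_of_lt ?_ h1
  refine mk_le_of_injective (f := fun g l => ULift.up (g l)) ?_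
  intro a b hab
  funext l
  exact congrArg ULift.down (congrFun hab l)

/-- In a non-special tree some node is good at all levels. -/
theorem exists_root (h : MC κ K) (hT : IsTree T) (hI : ∀ t : T, #(Iio t) ≤ κ)
    (wfΛ : WellFoundedLT Λ) (hΛ : #Λ < κ) (hns : ¬ Spec K (univ : Set T))
    {c : T → T → Fin k} {D : T → Dat T Λ} (hD : IsSystem κ c D) :
    ∃ δ, ∀ σ, (D δ).G σ := by
  classical
  by_contra hcon
  push Not at hcon
  apply hns
  apply special_of_small_cof h hT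
  have h1 : {ζ : T | Cof κ ζ} ⊆
      ⋃ σ : Λ, {ζ : T | Cof κ ζ ∧ (∀ σ' < σ, (D ζ).G σ') ∧ ¬ (D ζ).G σ} := by
    intro ζ hζ
    obtain ⟨σ, hσ, hmin⟩ := wfΛ.wf.has_min {σ | ¬ (D ζ).G σ} (hcon ζ)
    refine mem_iUnion.2 ⟨σ, hζ, fun σ' hσ' => ?_, hσ⟩
    by_contra h2
    exact hmin σ' h2 hσ'
  refine Small.mono (small_iUnion h hΛ.le _ (fun σ => ?_)) h1
  have hZ : #((List Λ → Fin k) × ULift.{u} Bool) ≤ κ := by
    apply h.prod_le (mk_vec_lt h hΛ).le
    exact ((lt_aleph0_of_finite _).trans h.unc).le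
  refine small_of_reflect h hI hZ (mk_vec_lt (Λ := Λ) (k := k) h hΛ).le
    (fun η => (vec c (D η).V η, ULift.up (decide (∀ σ' < σ, (D η).G σ')))) (obs c D) _ ?_
  rintro ζ ⟨hζ1, hζ2, hζ3⟩
  refine ⟨hζ1, ?_⟩
  obtain ⟨Q, hQ1, hQ2, hQ3⟩ := hD.bad ζ σ hζ3
  refine ⟨Q, hQ1, hQ2, fun η hη h2 h3 h4 => ?_⟩
  have h5 : vec c (D η).V η = vec c (D ζ).V ζ := congrArg Prod.fst h2
  have h6 : decide (∀ σ' < σ, (D η).G σ') = decide (∀ σ' < σ, (D ζ).G σ') :=
    congrArg (fun p => p.2.down) h2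
  have h7 : ∀ σ' < σ, (D η).G σ' := by
    rw [decide_eq_decide] at h6
    exact h6.2 hζ2
  exact hQ3 η hη h7 (fun l _ => congrFun h5 l) (fun q hq => ⟨h4 q hq, h3 q hq (h4 q hq)⟩)

end System

end Pool.MTree
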